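import Pool.Agent.Helper49K9.LP.Defs

/-!
The cross-ratio of the rectangle with the left and lower sides wired.
-/

set_option autoImplicit false

namespace H49LP

open H974 hiding bd
open H731C H731R H731A H731G Finset

/-- the size for the wired side -/
noncomputable def Wt (m n x y : ℤ) : ℝ :=
  (((m + 1 - x : ℤ) : ℝ) * ((n + 1 - y : ℤ) : ℝ)) /
    (((m + 1 - x + (y + 1) : ℤ) : ℝ) * ((n + 1 - y + (x + 1) : ℤ) : ℝ))

/-- the size for the free side -/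
noncomputable def Ft (m n x y : ℤ) : ℝ :=
  (((x + 1 : ℤ) : ℝ) * ((y + 1 : ℤ) : ℝ)) /
    (((m + 1 - x + (y + 1) : ℤ) : ℝ) * ((n + 1 - y + (x + 1) : ℤ) : ℝ))

theorem rho_m {m n : ℤ} (hm : 1 ≤ m) (hn : 1 ≤ n) : rho m n m = 0 := by
  rw [rho_bot hm hn (by omega) le_rfl]; omega

theorem rho_n {m n : ℤ} (hm : 1 ≤ m) (hn : 1 ≤ n) : rho m n (-n) = 0 := by
  have h := rho_period m n (-n) 1
  have e : -n + 1 * (2 * (m + n)) = 2 * m + n := by ring
  rw [e] at h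
  rw [← h]
  have hN : 0 < 2 * (m + n) := by omega
  have h1 := cd_nonneg hN (2 * m + n)
  have h2 := cd_nonneg hN (2 * m + n - m)
  have h3 := cd_nonneg hN (2 * m + n - (m + n))
  have h4 : cd (2 * (m + n)) (2 * m + n - (2 * m + n)) = 0 := by
    rw [sub_self, cd_of_mem le_rfl hN.le hN]; omega
  unfold rho
  omega

theorem sz_ab {m n : ℤ} (hm : 1 ≤ m) (hn : 1 ≤ n) :
    sz m n (-n) m = (m + n + 1) * (m + n + 1) := by
  unfold sz
  rw [rho_m hm hn, rho_n hm hn, sub_neg_eq_add,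
    cd_of_mem (by omega) (by omega) (by omega : 0 < 2 * (m + n)),
    min_eq_left (by omega : m + n ≤ 2 * (m + n) - (m + n)), add_zero, add_zero]

theorem ds_a {m n : ℤ} (hm : 1 ≤ m) (hn : 1 ≤ n) {x y : ℤ} (hx : 0 ≤ x) (hy : y ≤ n) :
    ds m n (x, y) (-n) = max x (n - y) + 1 := by
  unfold ds
  rw [bd_neg hm hn le_rfl (by omega)]
  simp only
  rw [abs_of_nonneg (by omega : 0 ≤ x - 0), abs_of_nonpos (by omega : y - - -n ≤ 0)]
  congr 2
  · ring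
  · ring

theorem ds_b {m n : ℤ} (hm : 1 ≤ m) (hn : 1 ≤ n) {x y : ℤ} (hx : x ≤ m) (hy : 0 ≤ y) :
    ds m n (x, y) m = max (m - x) y + 1 := by
  unfold ds
  rw [bd_bot hm hn (by omega) le_rfl]
  simp only
  rw [abs_of_nonpos (by omega : x - m ≤ 0), abs_of_nonneg (by omega : 0 ≤ y - 0)]
  congr 2
  · ring
  · ring

theorem HH_eq {m n : ℤ} (hm : 1 ≤ m) (hn : 1 ≤ n) {x y : ℤ} (hx : 0 ≤ x ∧ x ≤ m)
    (hy : 0 ≤ y ∧ y ≤ n) : HH m n (-n) m (x, y) =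
      (((px m (x, y) * (m + n + 1) : ℤ) : ℝ) * ((py n (x, y) * (m + n + 1) : ℤ) : ℝ)) /
        ((((max x (n - y) + 1) ^ 2 : ℤ) : ℝ) * (((max (m - x) y + 1) ^ 2 : ℤ) : ℝ)) := by
  unfold HH sv
  rw [rho_m hm hn, rho_n hm hn, sz_ab hm hn, ds_a hm hn hx.1 hy.2, ds_b hm hn hx.2 hy.1]
  push_cast
  ring_nf

/-- `min * max` -/
theorem min_bounds {p q L N : ℤ} (hp : 1 ≤ p) (hq : 1 ≤ q) (hN : p + q ≤ N) (hL : N ≤ L + 1)
    {k : ℤ} (hk : 0 ≤ k) (h : L ≤ k * (p + q)) : p * q ≤ min p q * L ∧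
    min p q * L ≤ 2 * k * (p * q) := by
  rcases le_total p q with h1 | h1
  · rw [min_eq_left h1]
    constructor
    · nlinarith
    · have e1 : p * L ≤ p * (k * (p + q)) := mul_le_mul_of_nonneg_left h (by omega)
      have e2 : p * (k * (p + q)) ≤ p * (k * (2 * q)) :=
        mul_le_mul_of_nonneg_left (mul_le_mul_of_nonneg_left (by omega) hk) (by omega)
      calc p * L ≤ p * (k * (2 * q)) := e1.trans e2
        _ = 2 * k * (p * q) := by ring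
  · rw [min_eq_right h1]
    constructor
    · nlinarith
    · have e1 : q * L ≤ q * (k * (p + q)) := mul_le_mul_of_nonneg_left h (by omega)
      have e2 : q * (k * (p + q)) ≤ q * (k * (2 * p)) :=
        mul_le_mul_of_nonneg_left (mul_le_mul_of_nonneg_left (by omega) hk) (by omega)
      calc q * L ≤ q * (k * (2 * p)) := e1.trans e2
        _ = 2 * k * (p * q) := by ring

theorem FW_eq (m n x y : ℤ) : Ft m n x y * Wt m n x y =
    ((((x + 1) * (m + 1 - x) : ℤ) : ℝ) * (((y + 1) * (n + 1 - y) : ℤ) : ℝ)) /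
      ((((n + 1 - y + (x + 1)) ^ 2 : ℤ) : ℝ) * (((m + 1 - x + (y + 1)) ^ 2 : ℤ) : ℝ)) := by
  unfold Ft Wt
  rw [div_mul_div_comm]
  push_cast
  ring_nf

/-- The cross-ratio, up to constants. -/
theorem HH_bounds (K : ℕ) {m n : ℤ} (hm : 1 ≤ m) (hn : 1 ≤ n) (h1 : m ≤ K * n) (h2 : n ≤ K * m)
    {x y : ℤ} (hx : 0 ≤ x ∧ x ≤ m) (hy : 0 ≤ y ∧ y ≤ n) :
    Ft m n x y * Wt m n x y ≤ HH m n (-n) m (x, y) ∧
      HH m n (-n) m (x, y) ≤ 64 * ((K : ℝ) + 1) ^ 2 * (Ft m n x y * Wt m n x y) := by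
  have hK : (0 : ℤ) ≤ K := Int.natCast_nonneg K
  have p1 : px m (x, y) = min (x + 1) (m + 1 - x) := by unfold px; simp only; omega
  have p2 : py n (x, y) = min (y + 1) (n + 1 - y) := by unfold py; simp only; omega
  have hL1 : m + n + 1 ≤ ((K : ℤ) + 1) * ((x + 1) + (m + 1 - x)) := by nlinarith
  have hL2 : m + n + 1 ≤ ((K : ℤ) + 1) * ((y + 1) + (n + 1 - y)) := by nlinarith
  obtain ⟨a1, a2⟩ := min_bounds (p := x + 1) (q := m + 1 - x) (L := m + n + 1) (N := m + 2)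
    (by omega) (by omega) (by omega) (by omega) (k := (K : ℤ) + 1) (by omega) hL1
  obtain ⟨b1, b2⟩ := min_bounds (p := y + 1) (q := n + 1 - y) (L := m + n + 1) (N := n + 2)
    (by omega) (by omega) (by omega) (by omega) (k := (K : ℤ) + 1) (by omega) hL2
  rw [← p1] at a1 a2
  rw [← p2] at b1 b2
  rw [HH_eq hm hn hx hy, FW_eq]
  have a0 : 0 ≤ (x + 1) * (m + 1 - x) := mul_nonneg (by omega) (by omega)
  have b0 : 0 ≤ (y + 1) * (n + 1 - y) := mul_nonneg (by omega) (by omega)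
  have c1 : 1 ≤ (max x (n - y) + 1) ^ 2 := by nlinarith [le_max_left x (n - y)]
  have d1 : 1 ≤ (max (m - x) y + 1) ^ 2 := by nlinarith [le_max_right (m - x) y]
  have c2 : (max x (n - y) + 1) ^ 2 ≤ (n + 1 - y + (x + 1)) ^ 2 :=
    pow_le_pow_left₀ (by omega) (by omega) 2
  have d2 : (max (m - x) y + 1) ^ 2 ≤ (m + 1 - x + (y + 1)) ^ 2 :=
    pow_le_pow_left₀ (by omega) (by omega) 2
  have c3 : (n + 1 - y + (x + 1)) ^ 2 ≤ 4 * (max x (n - y) + 1) ^ 2 := by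
    have : (n + 1 - y + (x + 1)) ^ 2 ≤ (2 * (max x (n - y) + 1)) ^ 2 :=
      pow_le_pow_left₀ (by omega) (by omega) 2
    linarith [this, (by ring : (2 * (max x (n - y) + 1)) ^ 2 = 4 * (max x (n - y) + 1) ^ 2)]
  have d3 : (m + 1 - x + (y + 1)) ^ 2 ≤ 4 * (max (m - x) y + 1) ^ 2 := by
    have : (m + 1 - x + (y + 1)) ^ 2 ≤ (2 * (max (m - x) y + 1)) ^ 2 :=
      pow_le_pow_left₀ (by omega) (by omega) 2
    linarith [this, (by ring : (2 * (max (m - x) y + 1)) ^ 2 = 4 * (max (m - x) y + 1) ^ 2)]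
  have C1 : (1 : ℝ) ≤ (((max x (n - y) + 1) ^ 2 : ℤ) : ℝ) := by exact_mod_cast c1
  have D1 : (1 : ℝ) ≤ (((max (m - x) y + 1) ^ 2 : ℤ) : ℝ) := by exact_mod_cast d1
  have C2 : (((max x (n - y) + 1) ^ 2 : ℤ) : ℝ) ≤ (((n + 1 - y + (x + 1)) ^ 2 : ℤ) : ℝ) := by
    exact_mod_cast c2
  have D2 : (((max (m - x) y + 1) ^ 2 : ℤ) : ℝ) ≤ (((m + 1 - x + (y + 1)) ^ 2 : ℤ) : ℝ) := by
    exact_mod_cast d2
  have C3 : (((n + 1 - y + (x + 1)) ^ 2 : ℤ) : ℝ) ≤ 4 * (((max x (n - y) + 1) ^ 2 : ℤ) : ℝ) := by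
    exact_mod_cast c3
  have D3 : (((m + 1 - x + (y + 1)) ^ 2 : ℤ) : ℝ) ≤ 4 * (((max (m - x) y + 1) ^ 2 : ℤ) : ℝ) := by
    exact_mod_cast d3
  have A0 : (0 : ℝ) ≤ (((x + 1) * (m + 1 - x) : ℤ) : ℝ) := by exact_mod_cast a0
  have B0 : (0 : ℝ) ≤ (((y + 1) * (n + 1 - y) : ℤ) : ℝ) := by exact_mod_cast b0
  have A1 : (((x + 1) * (m + 1 - x) : ℤ) : ℝ) ≤ ((px m (x, y) * (m + n + 1) : ℤ) : ℝ) := by
    exact_mod_cast a1
  have B1 : (((y + 1) * (n + 1 - y) : ℤ) : ℝ) ≤ ((py n (x, y) * (m + n + 1) : ℤ) : ℝ) := by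
    exact_mod_cast b1
  have A2 : ((px m (x, y) * (m + n + 1) : ℤ) : ℝ) ≤
      2 * ((K : ℝ) + 1) * (((x + 1) * (m + 1 - x) : ℤ) : ℝ) := by
    exact_mod_cast a2
  have B2 : ((py n (x, y) * (m + n + 1) : ℤ) : ℝ) ≤
      2 * ((K : ℝ) + 1) * (((y + 1) * (n + 1 - y) : ℤ) : ℝ) := by
    exact_mod_cast b2
  generalize (((x + 1) * (m + 1 - x) : ℤ) : ℝ) = a at *
  generalize (((y + 1) * (n + 1 - y) : ℤ) : ℝ) = b at *
  generalize ((px m (x, y) * (m + n + 1) : ℤ) : ℝ) = a' at *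
  generalize ((py n (x, y) * (m + n + 1) : ℤ) : ℝ) = b' at *
  generalize (((max x (n - y) + 1) ^ 2 : ℤ) : ℝ) = c at *
  generalize (((max (m - x) y + 1) ^ 2 : ℤ) : ℝ) = d at *
  generalize (((n + 1 - y + (x + 1)) ^ 2 : ℤ) : ℝ) = c' at *
  generalize (((m + 1 - x + (y + 1)) ^ 2 : ℤ) : ℝ) = d' at *
  have hKR : (0 : ℝ) ≤ K := Nat.cast_nonneg K
  constructor
  · apply div_le_div₀ (mul_nonneg (A0.trans A1) (B0.trans B1)) (mul_le_mul A1 B1 B0 (A0.trans A1))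
      (by positivity) (mul_le_mul C2 D2 (by linarith) (by linarith))
  · have e1 : a' * b' ≤ (2 * ((K : ℝ) + 1) * a) * (2 * ((K : ℝ) + 1) * b) :=
      mul_le_mul A2 B2 (B0.trans B1) (by positivity)
    have e2 : c' * d' ≤ (4 * c) * (4 * d) := mul_le_mul C3 D3 (by linarith) (by linarith)
    have hcd : 0 < c * d := mul_pos (by linarith) (by linarith)
    have hcd' : 0 < c' * d' := mul_pos (by linarith) (by linarith)
    rw [← mul_div_assoc, div_le_div_iff₀ hcd hcd']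
    have e3 : a' * b' * (c' * d') ≤
        ((2 * ((K : ℝ) + 1) * a) * (2 * ((K : ℝ) + 1) * b)) * ((4 * c) * (4 * d)) :=
      mul_le_mul e1 e2 hcd'.le (by positivity)
    calc a' * b' * (c' * d') ≤ _ := e3
      _ = 64 * ((K : ℝ) + 1) ^ 2 * (a * b) * (c * d) := by ring

/-- bound for the cross-ratio along the path -/
theorem alg_step {s N P Q : ℝ} (hs : 0 < s) (hsN : s ≤ N / 2) (hP : 0 < P) (hQ : 0 < Q) :
    (N - s) * s * (P * Q) / ((N - s + P) ^ 2 * (s + Q) ^ 2) ≤ s * (2 * P / (Q * (P + N))) := by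
  have h1 : 0 < N - s := by linarith
  have h2 : 0 < N - s + P := by linarith
  have h3 : 0 < P + N := by linarith
  rw [div_le_iff₀ (by positivity), ← mul_div_assoc, div_mul_eq_mul_div,
    le_div_iff₀ (by positivity)]
  have e1 : (P + N) ≤ 2 * (N - s + P) := by linarith
  have e2 : Q ^ 2 ≤ (s + Q) ^ 2 := by nlinarith
  have e3 : (N - s) ≤ (N - s + P) := by linarith
  have e4 : (N - s) * (P + N) ≤ (N - s + P) * (2 * (N - s + P)) :=
    mul_le_mul e3 e1 (by linarith) (by linarith)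
  have e5 : (N - s) * (P + N) * Q ^ 2 ≤ (N - s + P) * (2 * (N - s + P)) * (s + Q) ^ 2 :=
    mul_le_mul e4 e2 (sq_nonneg Q) (mul_nonneg h2.le (by linarith))
  have e6 := mul_le_mul_of_nonneg_left e5 (mul_nonneg hs.le hP.le : 0 ≤ s * P)
  calc (N - s) * s * (P * Q) * (Q * (P + N)) = s * P * ((N - s) * (P + N) * Q ^ 2) := by ring
    _ ≤ s * P * ((N - s + P) * (2 * (N - s + P)) * (s + Q) ^ 2) := e6
    _ = s * (2 * P) * ((N - s + P) ^ 2 * (s + Q) ^ 2) := by ring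

theorem alg_cmp {σ τ N P Q M : ℝ} (h0 : 0 ≤ σ) (hτ : σ ≤ τ) (h0' : 0 < τ) (hQ : τ ≤ Q)
    (hP : 0 < P) (hM : 0 ≤ M) (hMN : M ≤ N) :
    σ * (2 * P / (Q * (P + N))) ≤ 4 * (τ * P / ((τ + Q) * (P + M))) := by
  have hQ0 : 0 < Q := by linarith
  have hN : 0 ≤ N := by linarith
  rw [← mul_div_assoc, ← mul_div_assoc, div_le_div_iff₀ (by positivity) (by positivity)]
  have e1 : (τ + Q) ≤ 2 * Q := by linarith
  have e2 : (P + M) ≤ (P + N) := by linarith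
  have e3 : (τ + Q) * (P + M) ≤ (2 * Q) * (P + N) := mul_le_mul e1 e2 (by positivity) (by linarith)
  have e4 : σ * (2 * P) ≤ τ * (2 * P) := mul_le_mul_of_nonneg_right hτ (by linarith)
  calc σ * (2 * P) * ((τ + Q) * (P + M)) ≤ τ * (2 * P) * ((2 * Q) * (P + N)) :=
        mul_le_mul e4 e3 (by positivity) (by positivity)
    _ = 4 * (τ * P) * (Q * (P + N)) := by ring

end H49LP
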