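import Pool.Agent.Helper49K9.LP.Defs
import Pool.Agent.H985R3.TA.STA
import Pool.Agent.H934R3.SL.SL

/-!
The probability that the interface meets a straight path to the boundary.
-/

set_option autoImplicit false

namespace H49LP

open H974 hiding bd
open H731C H731R H731A H731G Finset

/-- cube root -/
theorem third_half {T : ℝ} (hT : 0 ≤ T) :
    (T / 2) ^ ((1 : ℝ) / 3) ≤ (4 / 5) * T ^ ((1 : ℝ) / 3) := by
  have h1 : (T / 2) ^ ((1 : ℝ) / 3) ≤ ((4 / 5 : ℝ) ^ 3 * T) ^ ((1 : ℝ) / 3) :=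
    Real.rpow_le_rpow (by positivity) (by nlinarith) (by norm_num)
  have h2 : ((4 / 5 : ℝ) ^ 3 * T) ^ ((1 : ℝ) / 3) = (4 / 5) * T ^ ((1 : ℝ) / 3) := by
    rw [Real.mul_rpow (by positivity) hT]
    congr 1
    rw [← Real.rpow_natCast (4 / 5 : ℝ) 3, ← Real.rpow_mul (by norm_num)]
    norm_num
  rw [← h2]; exact h1

theorem cover (K : ℕ) : ∃ A : ℝ, 0 < A ∧ ∀ (m n : ℤ) (a b : ℤ), 1 ≤ m → 1 ≤ n → m ≤ K * n →
    n ≤ K * m → a ≤ b → b < a + 2 * (m + n) → ∀ (c : ℤ → Vtx) (σ : ℤ) (Q : ℝ), 0 ≤ Q → 0 ≤ σ →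
    (∀ s, 1 ≤ s → s ≤ σ → (0 ≤ (c s).1 ∧ (c s).1 ≤ m) ∧ (0 ≤ (c s).2 ∧ (c s).2 ≤ n)) →
    (∀ s, 1 ≤ s → s ≤ σ → min (px m (c s)) (py n (c s)) = s) →
    (∀ s t, |(c s).1 - (c t).1| ≤ |s - t| ∧ |(c s).2 - (c t).2| ≤ |s - t|) →
    (∀ s, 1 ≤ s → s ≤ σ → HH m n a b (c s) ≤ s * Q) →
    P2 (RE 0 m 0 n) (fun F => ∃ s, (1 ≤ s ∧ s ≤ σ) ∧ OnV m n a b (c s) F) ≤
      A * ((σ : ℝ) * Q) ^ ((1 : ℝ) / 3) := by
  obtain ⟨_, C, _, hC, h⟩ := H731G.green_scale H985T.st_A H934SL.st_L K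
  refine ⟨10 * C, by positivity, ?_⟩
  intro m n a b hm hn h1 h2 hab hba c σ Q hQ hσ hR hρ hd hH
  have key : ∀ N : ℕ, ∀ τ : ℤ, τ ≤ N → 0 ≤ τ → τ ≤ σ →
      P2 (RE 0 m 0 n) (fun F => ∃ s, (1 ≤ s ∧ s ≤ τ) ∧ OnV m n a b (c s) F) ≤
        10 * C * ((τ : ℝ) * Q) ^ ((1 : ℝ) / 3) := by
    intro N
    induction N with
    | zero =>
      intro τ h3 h4 _
      rw [Sc.P2_zero]
      · have : (0 : ℝ) ≤ (τ : ℝ) := by exact_mod_cast h4
        positivity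
      · rintro F ⟨s, hs, -⟩
        push_cast at h3
        omega
    | succ N ih =>
      intro τ hτN h4 hτσ
      push_cast at hτN
      rcases h4.eq_or_lt with h5 | h5
      · rw [Sc.P2_zero]
        · have : (0 : ℝ) ≤ (τ : ℝ) := by exact_mod_cast h4
          positivity
        · rintro F ⟨s, hs, -⟩
          omega
      · have hτ0 : (0 : ℝ) < (τ : ℝ) := by exact_mod_cast h5
        obtain ⟨g1, g2⟩ := hR τ (by omega) hτσ
        have hρτ := hρ τ (by omega) hτσ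
        have e1 := (h m n a b (τ / 2) (c τ) hm hn h1 h2 hab hba g1 g2 (by omega)
          (by rw [hρτ]; omega)).2
        have e2 := ih (τ - τ / 2 - 1) (by omega) (by omega) (by omega)
        have e3 : P2 (RE 0 m 0 n) (fun F => ∃ s, (1 ≤ s ∧ s ≤ τ) ∧ OnV m n a b (c s) F) ≤
            P2 (RE 0 m 0 n) (HitB m n a b (c τ) (τ / 2)) +
            P2 (RE 0 m 0 n) (fun F => ∃ s, (1 ≤ s ∧ s ≤ τ - τ / 2 - 1) ∧
              OnV m n a b (c s) F) := by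
          refine le_trans (Sc.P2_mono' ?_) (UA.P2_or _ _ _)
          rintro F ⟨s, hs, hon⟩
          rcases le_or_gt s (τ - τ / 2 - 1) with h6 | h6
          · exact Or.inr ⟨s, ⟨hs.1, h6⟩, hon⟩
          · left
            obtain ⟨d1, d2⟩ := hd s τ
            have h7 : |s - τ| ≤ τ / 2 := by rw [abs_le]; omega
            exact ⟨c s, ⟨d1.trans h7, d2.trans h7⟩, hon⟩
        rw [hρτ] at e1
        have hT : 0 ≤ (τ : ℝ) * Q := by positivity
        have q1 : ((((τ / 2 + 1 : ℤ) : ℝ) / ((τ : ℤ) : ℝ)) ^ ((1 : ℝ) / 4)) ≤ 2 := by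
          have r1 : (((τ / 2 + 1 : ℤ) : ℝ) / ((τ : ℤ) : ℝ)) ≤ 2 ^ (4 : ℕ) * 1 := by
            rw [div_le_iff₀ hτ0]
            have : ((τ / 2 + 1 : ℤ) : ℝ) ≤ 16 * (τ : ℝ) := by
              exact_mod_cast (by omega : τ / 2 + 1 ≤ 16 * τ)
            linarith
          have r2 := Sc.quart_le (x := ((τ / 2 + 1 : ℤ) : ℝ) / ((τ : ℤ) : ℝ)) (y := 1) (k := 2)
            (by
              apply div_nonneg _ hτ0.le
              exact_mod_cast (by omega : (0 : ℤ) ≤ τ / 2 + 1)) zero_le_one (by norm_num) r1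
          rwa [Real.one_rpow, mul_one] at r2
        have q2 : HH m n a b (c τ) ^ ((1 : ℝ) / 3) ≤ ((τ : ℝ) * Q) ^ ((1 : ℝ) / 3) :=
          Real.rpow_le_rpow (HH_nonneg hm hn g1 g2) (hH τ (by omega) hτσ) (by norm_num)
        have hHp : 0 ≤ HH m n a b (c τ) ^ ((1 : ℝ) / 3) :=
          Real.rpow_nonneg (HH_nonneg hm hn g1 g2) _
        have e4 : P2 (RE 0 m 0 n) (HitB m n a b (c τ) (τ / 2)) ≤
            2 * C * ((τ : ℝ) * Q) ^ ((1 : ℝ) / 3) := by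
          refine e1.trans ?_
          have : ((((τ / 2 + 1 : ℤ) : ℝ) / ((τ : ℤ) : ℝ)) ^ ((1 : ℝ) / 4)) *
              HH m n a b (c τ) ^ ((1 : ℝ) / 3) ≤ 2 * ((τ : ℝ) * Q) ^ ((1 : ℝ) / 3) :=
            mul_le_mul q1 q2 hHp (by norm_num)
          calc _ ≤ C * (2 * ((τ : ℝ) * Q) ^ ((1 : ℝ) / 3)) :=
                mul_le_mul_of_nonneg_left this hC.le
            _ = 2 * C * ((τ : ℝ) * Q) ^ ((1 : ℝ) / 3) := by ring
        have e5 : (((τ - τ / 2 - 1 : ℤ) : ℝ) * Q) ^ ((1 : ℝ) / 3) ≤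
            (4 / 5) * ((τ : ℝ) * Q) ^ ((1 : ℝ) / 3) := by
          refine le_trans ?_ (third_half hT)
          apply Real.rpow_le_rpow _ _ (by norm_num)
          · have : (0 : ℝ) ≤ ((τ - τ / 2 - 1 : ℤ) : ℝ) := by
              exact_mod_cast (by omega : (0 : ℤ) ≤ τ - τ / 2 - 1)
            positivity
          · have : 2 * ((τ - τ / 2 - 1 : ℤ) : ℝ) ≤ (τ : ℝ) := by
              exact_mod_cast (by omega : 2 * (τ - τ / 2 - 1) ≤ τ)
            have := mul_le_mul_of_nonneg_right this hQ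
            linarith
        have e6 := mul_le_mul_of_nonneg_left e5 (by positivity : 0 ≤ 10 * C)
        linarith
  exact key σ.toNat σ (by omega) hσ le_rfl

end H49LP
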