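import Pool.Agent.Helper49K9.LP.Defs

/-!
A path from the free arc to a vertex on the side of the wired arc meets the interface.
-/

set_option autoImplicit false

namespace H49LP

open H974 hiding bd
open H731C H731R H731A H731G Finset

/-- Adding edges between vertices outside of the cluster does not change the cluster. -/
theorem VA_union {m n a b : ℤ} {F P : Finset Edg} {S : Vtx → Prop}
    (hS : ∀ v, S v → ¬ VA m n a b v F) (hP : ∀ e ∈ P, S (src e) ∧ S (tgt e)) {v : Vtx}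
    (h : VA m n a b v (F ∪ P)) : VA m n a b v F := by
  obtain ⟨i, hi, hr⟩ := h
  induction hr with
  | refl => exact ⟨i, hi, Reach.refl _ _⟩
  | @tail u w _ hs ih =>
    obtain ⟨e, ⟨he, hR⟩, hc⟩ := hs
    rw [mem_coe, mem_union] at he
    rcases he with he | he
    · exact VA_step ih ⟨e, ⟨he, hR⟩, hc⟩
    · exfalso
      obtain ⟨h1, h2⟩ := hP e he
      rcases hc with ⟨h3, -⟩ | ⟨-, h3⟩
      · rw [h3] at h1; exact hS _ h1 ih
      · rw [h3] at h2; exact hS _ h2 ih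

/-- A dual path from the free arc lies in the dual cluster of the free arc. -/
theorem dual_bar {m n a b : ℤ} {F F1 : Finset Edg} (hF : F ⊆ F1) {j : ℤ}
    (hj : b ≤ j ∧ j < a + 2 * (m + n)) {f : Vtx}
    (h : DReach ((↑F1 : Set Edg)ᶜ ∩ ↑(RE 0 m 0 n)) (ofc m n j) f) :
    DReach ((↑F1 : Set Edg)ᶜ ∩ ↑(bar m n a b F)) (ofc m n j) f ∧ FB m n a b f F := by
  induction h with
  | refl => exact ⟨DReach.refl _ _, j, hj, DReach.refl _ _⟩
  | @tail f g _ hs ih =>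
    obtain ⟨e, ⟨he, hR⟩, hc⟩ := hs
    have he' : e ∉ F := fun h => he (hF h)
    have hg : FB m n a b g F := FB_step ih.2 ⟨e, ⟨he', hR⟩, hc⟩
    refine ⟨ih.1.trans (DAdj.reach ⟨e, ⟨he, ?_⟩, hc⟩), hg⟩
    rw [mem_coe, mem_bar]
    refine ⟨hR, he', ?_⟩
    rcases hc with ⟨h3, h4⟩ | ⟨h3, h4⟩
    · rw [h3, h4]; exact ⟨ih.2, hg⟩
    · rw [h3, h4]; exact ⟨hg, ih.2⟩

/-- a connection which is lost when an edge is removed reaches this edge -/
theorem cut {G : Set Edg} {e : Edg} {x y : Vtx} (h : DReach G x y) :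
    DReach (G \ {e}) x y ∨ DReach G x (dsrc e) := by
  induction h with
  | refl => exact Or.inl (DReach.refl _ _)
  | @tail f g hfg hs ih =>
    rcases ih with ih | ih
    · obtain ⟨e', he', hc⟩ := hs
      by_cases hee : e' = e
      · right
        subst hee
        rcases hc with ⟨h3, h4⟩ | ⟨h3, h4⟩
        · rw [h3]; exact hfg
        · rw [h3]; exact DReach.trans hfg (DAdj.reach ⟨e', he', Or.inr ⟨h3, h4⟩⟩)
      · left
        exact ih.trans (DAdj.reach ⟨e', ⟨he', hee⟩, hc⟩)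
    · exact Or.inr ih

/-- A path `c 1, c 2, ..., c σ` of the rectangle which starts at the boundary vertex `k`. -/
structure Path (m n k σ : ℤ) (c : ℤ → Vtx) (ed : ℤ → Edg) : Prop where
  start : c 1 = bd m n k
  mem : ∀ s, 1 ≤ s → s < σ → ed s ∈ RE 0 m 0 n
  ends : ∀ s, 1 ≤ s → s < σ → (src (ed s) = c s ∧ tgt (ed s) = c (s + 1)) ∨
    (src (ed s) = c (s + 1) ∧ tgt (ed s) = c s)

/-- the edges of the path -/
noncomputable def pe (ed : ℤ → Edg) (s : ℤ) : Finset Edg := (Finset.Ico 1 s).image ed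

theorem mem_pe {ed : ℤ → Edg} {s : ℤ} {e : Edg} : e ∈ pe ed s ↔ ∃ t, (1 ≤ t ∧ t < s) ∧ ed t = e := by
  unfold pe
  rw [mem_image]
  simp only [mem_Ico]

theorem Path.reach {m n k σ : ℤ} {c : ℤ → Vtx} {ed : ℤ → Edg} (hp : Path m n k σ c ed) {s : ℤ}
    (h1 : 1 ≤ s) (h2 : s ≤ σ) : Reach (↑(pe ed s) : Set Edg) (c s) (c 1) := by
  induction s, h1 using Int.leInduction with
  | base => exact Reach.refl _ _
  | succ s h1 ih =>
    have e1 := ih (by omega)
    have e2 : (↑(pe ed s) : Set Edg) ⊆ ↑(pe ed (s + 1)) := by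
      intro e he
      rw [mem_coe, mem_pe] at he ⊢
      obtain ⟨t, ht, h⟩ := he
      exact ⟨t, ⟨ht.1, by omega⟩, h⟩
    refine Reach.trans (Adj.reach ?_) (e1.mono e2)
    refine ⟨ed s, ?_, ?_⟩
    · rw [mem_coe, mem_pe]
      exact ⟨s, ⟨h1, by omega⟩, rfl⟩
    · rcases hp.ends s h1 (by omega) with h | h
      · exact Or.inr h
      · exact Or.inl h

theorem cor_dsrc {e : Edg} : cor (src e) (dsrc e) ∧ cor (tgt e) (dsrc e) := by
  obtain ⟨x, y, _ | _⟩ := e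
  · simp only [src_mk, tgt_false, dsrc_false, cor]
    simp
  · simp only [src_mk, tgt_true, dsrc_true, cor]
    simp

/-- if the path avoids the interface, then it avoids the wired cluster -/
theorem avoid {m n a b k σ : ℤ} (hm : 1 ≤ m) (hn : 1 ≤ n) (hab : a ≤ b) (hbk : b ≤ k)
    (hk : k < a + 2 * (m + n)) (hc : cor (bd m n k) (ofc m n k)) {c : ℤ → Vtx} {ed : ℤ → Edg}
    (hp : Path m n k σ c ed) {F : Finset Edg} (h : ∀ s, 1 ≤ s → s ≤ σ → ¬ OnV m n a b (c s) F) :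
    ∀ s, 1 ≤ s → s ≤ σ → ¬ VA m n a b (c s) F := by
  have key : ∀ N : ℕ, ∀ s : ℤ, 1 ≤ s → s ≤ N → s ≤ σ → ¬ VA m n a b (c s) F := by
   intro N
   induction N with
   | zero => intro s h1 h2; push_cast at h2; omega
   | succ N ih0 =>
    intro s h1 hsN hsσ hV
    push_cast at hsN
    have ih : ∀ t : ℤ, t < s → 1 ≤ t → t ≤ σ → ¬ VA m n a b (c t) F := fun t h3 h4 h5 =>
      ih0 t h4 (by omega) h5
    rcases h1.eq_or_lt with h2 | h2
    · subst h2
      refine h 1 le_rfl hsσ ⟨hV, ofc m n k, ?_, k, ⟨hbk, hk⟩, DReach.refl _ _⟩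
      rw [hp.start]; exact hc
    · obtain ⟨t, rfl⟩ : ∃ t, s = t + 1 := ⟨s - 1, by ring⟩
      have hout : ∀ v, (∃ t', (1 ≤ t' ∧ t' ≤ t) ∧ c t' = v) → ¬ VA m n a b v F := by
        rintro v ⟨t', ht', rfl⟩
        exact ih t' (by omega) ht'.1 (by omega)
      have hP : ∀ e ∈ pe ed t, (∃ t', (1 ≤ t' ∧ t' ≤ t) ∧ c t' = src e) ∧
          ∃ t', (1 ≤ t' ∧ t' ≤ t) ∧ c t' = tgt e := by
        intro e he
        rw [mem_pe] at he
        obtain ⟨t', ht', rfl⟩ := he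
        rcases hp.ends t' ht'.1 (by omega) with ⟨h3, h4⟩ | ⟨h3, h4⟩
        · exact ⟨⟨t', ⟨ht'.1, by omega⟩, h3.symm⟩, ⟨t' + 1, ⟨by omega, by omega⟩, h4.symm⟩⟩
        · exact ⟨⟨t' + 1, ⟨by omega, by omega⟩, h3.symm⟩, ⟨t', ⟨ht'.1, by omega⟩, h4.symm⟩⟩
      have hkb : b < k := by
        rcases hbk.eq_or_lt with h3 | h3
        · exfalso
          refine hout (c 1) ⟨1, ⟨le_rfl, by omega⟩, rfl⟩ ⟨b, ⟨hab, le_rfl⟩, ?_⟩
          rw [hp.start, h3]; exact Reach.refl _ _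
        · exact h3
      have hnot : ¬ AA m n a b k k (F ∪ pe ed t) := by
        rintro ⟨i, j, hi, hj, hr⟩
        have hj' : j = k := by omega
        subst hj'
        have := VA_union hout hP ⟨i, hi, hr⟩
        rw [← hp.start] at this
        exact hout (c 1) ⟨1, ⟨le_rfl, by omega⟩, rfl⟩ this
      obtain ⟨i, j, hi, hj, hr⟩ := dual_of_not hm hn hab hkb le_rfl hk hnot
      have hAA : AA m n a b k k (insert (ed t) (F ∪ pe ed t)) := by
        obtain ⟨i', hi', hr'⟩ := hV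
        refine ⟨i', k, hi', ⟨le_rfl, le_rfl⟩, ?_⟩
        rw [← hp.start]
        have e1 : Reach (↑(insert (ed t) (F ∪ pe ed t)) ∩ ↑(RE 0 m 0 n) : Set Edg)
            (bd m n i') (c (t + 1)) := hr'.mono (by
          rintro e ⟨h3, h4⟩
          refine ⟨?_, h4⟩
          rw [mem_coe, mem_insert, mem_union]
          exact Or.inr (Or.inl h3))
        refine e1.trans ((hp.reach h1 hsσ).mono ?_)
        intro e he
        rw [mem_coe, mem_pe] at he
        obtain ⟨t', ht', rfl⟩ := he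
        refine ⟨?_, hp.mem t' ht'.1 (by omega)⟩
        rw [mem_coe, mem_insert, mem_union, mem_pe]
        rcases (show t' = t ∨ t' < t by omega) with h3 | h3
        · left; rw [h3]
        · right; right; exact ⟨t', ⟨ht'.1, h3⟩, rfl⟩
      have hno : ¬ DReach ((↑(insert (ed t) (F ∪ pe ed t)) : Set Edg)ᶜ ∩ ↑(RE 0 m 0 n))
          (ofc m n i) (ofc m n j) := fun h3 =>
        not_of_dual hm hn hab hkb le_rfl hk hi hj h3 hAA
      rcases cut (e := ed t) hr with h3 | h3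
      · apply hno
        refine h3.mono ?_
        rintro e ⟨⟨h4, h5⟩, h6⟩
        refine ⟨fun h7 => ?_, h5⟩
        rw [mem_coe, mem_insert] at h7
        rcases h7 with h7 | h7
        · exact h6 h7
        · exact h4 h7
      · have hFB : FB m n a b (dsrc (ed t)) F := by
          refine ⟨i, ⟨hi.1, by omega⟩, h3.mono ?_⟩
          rintro e ⟨h4, h5⟩
          refine ⟨fun h7 => h4 ?_, h5⟩
          rw [mem_coe, mem_union]
          exact Or.inl h7
        refine h (t + 1) h1 hsσ ⟨hV, dsrc (ed t), ?_, hFB⟩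
        rcases hp.ends t (by omega) (by omega) with ⟨h4, h5⟩ | ⟨h4, h5⟩
        · rw [← h5]; exact cor_dsrc.2
        · rw [← h4]; exact cor_dsrc.1
  intro s h1 h2
  exact key s.toNat s h1 (by omega) h2

/-- if the path avoids the interface, then its end is not on the side of the wired arc -/
theorem not_WS {m n a b k σ : ℤ} (hm : 1 ≤ m) (hn : 1 ≤ n) (hab : a ≤ b) (hbk : b ≤ k)
    (hk : k < a + 2 * (m + n)) (hc : cor (bd m n k) (ofc m n k)) (hσ : 1 ≤ σ) {c : ℤ → Vtx}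
    {ed : ℤ → Edg}
    (hp : Path m n k σ c ed) {F : Finset Edg} (h : ∀ s, 1 ≤ s → s ≤ σ → ¬ OnV m n a b (c s) F) :
    ¬ WS m n a b (c σ) F := by
  have hV := avoid hm hn hab hbk hk hc hp h
  have hout : ∀ v, (∃ t', (1 ≤ t' ∧ t' ≤ σ) ∧ c t' = v) → ¬ VA m n a b v F := by
    rintro v ⟨t', ht', rfl⟩
    exact hV t' ht'.1 ht'.2
  have hP : ∀ e ∈ pe ed σ, (∃ t', (1 ≤ t' ∧ t' ≤ σ) ∧ c t' = src e) ∧
      ∃ t', (1 ≤ t' ∧ t' ≤ σ) ∧ c t' = tgt e := by
    intro e he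
    rw [mem_pe] at he
    obtain ⟨t', ht', rfl⟩ := he
    rcases hp.ends t' ht'.1 (by omega) with ⟨h3, h4⟩ | ⟨h3, h4⟩
    · exact ⟨⟨t', ⟨ht'.1, by omega⟩, h3.symm⟩, ⟨t' + 1, ⟨by omega, by omega⟩, h4.symm⟩⟩
    · exact ⟨⟨t' + 1, ⟨by omega, by omega⟩, h3.symm⟩, ⟨t', ⟨ht'.1, by omega⟩, h4.symm⟩⟩
  have hkb : b < k := by
    rcases hbk.eq_or_lt with h3 | h3
    · exfalso
      refine hout (c 1) ⟨1, ⟨le_rfl, by omega⟩, rfl⟩ ⟨b, ⟨hab, le_rfl⟩, ?_⟩
      rw [hp.start, h3]; exact Reach.refl _ _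
    · exact h3
  have hnot : ¬ AA m n a b k k (F ∪ pe ed σ) := by
    rintro ⟨i, j, hi, hj, hr⟩
    have hj' : j = k := by omega
    subst hj'
    have := VA_union hout hP ⟨i, hi, hr⟩
    rw [← hp.start] at this
    exact hout (c 1) ⟨1, ⟨le_rfl, by omega⟩, rfl⟩ this
  obtain ⟨i, j, hi, hj, hr⟩ := dual_of_not hm hn hab hkb le_rfl hk hnot
  have hbar := (dual_bar (a := a) (b := b) (F := F) subset_union_left ⟨hi.1, by omega⟩ hr).1
  rintro ⟨i', hi', hr'⟩
  refine not_of_dual (F := (RE 0 m 0 n \ bar m n a b F) ∪ pe ed σ) hm hn hab hkb le_rfl hk hi hj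
    (hbar.mono ?_) ⟨i', k, hi', ⟨le_rfl, le_rfl⟩, ?_⟩
  · rintro e ⟨h1, h2⟩
    refine ⟨fun h3 => ?_, (mem_bar.1 h2).1⟩
    rw [mem_coe, mem_union, mem_sdiff] at h3
    rcases h3 with h3 | h3
    · exact h3.2 h2
    · apply h1
      rw [mem_coe, mem_union]
      exact Or.inr h3
  · rw [← hp.start]
    have e1 : Reach (↑((RE 0 m 0 n \ bar m n a b F) ∪ pe ed σ) ∩ ↑(RE 0 m 0 n) : Set Edg)
        (bd m n i') (c σ) := hr'.mono (by
      intro e he
      refine ⟨?_, (mem_sdiff.1 he).1⟩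
      rw [mem_coe, mem_union]
      exact Or.inl he)
    refine e1.trans ((hp.reach hσ le_rfl).mono ?_)
    intro e he
    refine ⟨?_, ?_⟩
    · rw [mem_coe, mem_union]
      exact Or.inr he
    · rw [mem_coe, mem_pe] at he
      obtain ⟨t', ht', rfl⟩ := he
      exact hp.mem t' ht'.1 ht'.2

/-- a vertex on the side of the wired arc, joined to the free arc by a path: the path meets the
interface -/
theorem WS_hit {m n a b k σ : ℤ} (hm : 1 ≤ m) (hn : 1 ≤ n) (hab : a ≤ b) (hbk : b ≤ k)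
    (hk : k < a + 2 * (m + n)) (hc : cor (bd m n k) (ofc m n k)) (hσ : 1 ≤ σ) {c : ℤ → Vtx}
    {ed : ℤ → Edg} (hp : Path m n k σ c ed) {F : Finset Edg} (h : WS m n a b (c σ) F) :
    ∃ s, (1 ≤ s ∧ s ≤ σ) ∧ OnV m n a b (c s) F := by
  by_contra hno
  exact not_WS hm hn hab hbk hk hc hσ hp (fun s h1 h2 h3 => hno ⟨s, ⟨h1, h2⟩, h3⟩) h

theorem VA_hit {m n a b k σ : ℤ} (hm : 1 ≤ m) (hn : 1 ≤ n) (hab : a ≤ b) (hbk : b ≤ k)
    (hk : k < a + 2 * (m + n)) (hc : cor (bd m n k) (ofc m n k)) {c : ℤ → Vtx}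
    {ed : ℤ → Edg} (hp : Path m n k σ c ed) {F : Finset Edg} {t : ℤ} (ht : 1 ≤ t ∧ t ≤ σ)
    (h : VA m n a b (c t) F) :
    ∃ s, (1 ≤ s ∧ s ≤ σ) ∧ OnV m n a b (c s) F := by
  by_contra hno
  exact avoid hm hn hab hbk hk hc hp (fun s h1 h2 h3 => hno ⟨s, ⟨h1, h2⟩, h3⟩) t ht.1 ht.2 h

end H49LP
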