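import Pool.Agent.H731R5.Gr.Sc

/-!
Side of the interface on which a vertex lies: definitions.
-/

set_option autoImplicit false

namespace H49LP

open H974 hiding bd
open H731C H731R H731A H731G Finset

open Classical in
/-- The closed edges of the dual cluster of the free arc. -/
noncomputable def bar (m n a b : ℤ) (F : Finset Edg) : Finset Edg :=
  (RE 0 m 0 n).filter (fun e => e ∉ F ∧ FB m n a b (dsrc e) F ∧ FB m n a b (dtgt e) F)

/-- `v` is on the same side of the interface as the wired arc. -/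
def WS (m n a b : ℤ) (v : Vtx) (F : Finset Edg) : Prop :=
  ∃ i, (a ≤ i ∧ i ≤ b) ∧ Reach (↑(RE 0 m 0 n \ bar m n a b F) : Set Edg) (bd m n i) v

open Classical in
/-- The open edges of the open cluster of the wired arc. -/
noncomputable def wdg (m n a b : ℤ) (F : Finset Edg) : Finset Edg :=
  (RE 0 m 0 n).filter (fun e => e ∈ F ∧ VA m n a b (src e) F)

theorem mem_bar {m n a b : ℤ} {F : Finset Edg} {e : Edg} : e ∈ bar m n a b F ↔
    e ∈ RE 0 m 0 n ∧ e ∉ F ∧ FB m n a b (dsrc e) F ∧ FB m n a b (dtgt e) F := by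
  unfold bar
  simp only [mem_filter]

theorem mem_wdg {m n a b : ℤ} {F : Finset Edg} {e : Edg} : e ∈ wdg m n a b F ↔
    e ∈ RE 0 m 0 n ∧ e ∈ F ∧ VA m n a b (src e) F := by
  unfold wdg
  simp only [mem_filter]

theorem VA_step {m n a b : ℤ} {F : Finset Edg} {u v : Vtx} (h : VA m n a b u F)
    (hs : Adj (↑F ∩ ↑(RE 0 m 0 n)) u v) : VA m n a b v F := by
  obtain ⟨i, hi, hr⟩ := h
  exact ⟨i, hi, hr.trans hs.reach⟩

theorem FB_step {m n a b : ℤ} {F : Finset Edg} {u v : Vtx} (h : FB m n a b u F)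
    (hs : DAdj ((↑F : Set Edg)ᶜ ∩ ↑(RE 0 m 0 n)) u v) : FB m n a b v F := by
  obtain ⟨i, hi, hr⟩ := h
  exact ⟨i, hi, hr.trans hs.reach⟩

theorem VA_edge {m n a b : ℤ} {F : Finset Edg} {e : Edg} (he : e ∈ F) (hR : e ∈ RE 0 m 0 n) :
    VA m n a b (src e) F ↔ VA m n a b (tgt e) F := by
  have h1 : Adj (↑F ∩ ↑(RE 0 m 0 n)) (src e) (tgt e) :=
    ⟨e, ⟨he, hR⟩, Or.inl ⟨rfl, rfl⟩⟩
  exact ⟨fun h => VA_step h h1, fun h => VA_step h h1.symm⟩

theorem FB_edge {m n a b : ℤ} {F : Finset Edg} {e : Edg} (he : e ∉ F) (hR : e ∈ RE 0 m 0 n) :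
    FB m n a b (dsrc e) F ↔ FB m n a b (dtgt e) F := by
  have h1 : DAdj ((↑F : Set Edg)ᶜ ∩ ↑(RE 0 m 0 n)) (dsrc e) (dtgt e) :=
    ⟨e, ⟨he, hR⟩, Or.inl ⟨rfl, rfl⟩⟩
  exact ⟨fun h => FB_step h h1, fun h => FB_step h h1.symm⟩

/-- an open connection is a connection which avoids the closed edges -/
theorem VA_WS {m n a b : ℤ} {F : Finset Edg} {v : Vtx} (h : VA m n a b v F) :
    WS m n a b v F := by
  obtain ⟨i, hi, hr⟩ := h
  refine ⟨i, hi, hr.mono ?_⟩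
  rintro e ⟨h1, h2⟩
  rw [mem_coe, mem_sdiff, mem_bar]
  exact ⟨h2, fun h3 => h3.2.1 h1⟩

theorem WS_step {m n a b : ℤ} {F : Finset Edg} {u v : Vtx} (h : WS m n a b u F)
    (hs : Reach (↑(RE 0 m 0 n \ bar m n a b F) : Set Edg) u v) : WS m n a b v F := by
  obtain ⟨i, hi, hr⟩ := h
  exact ⟨i, hi, hr.trans hs⟩

theorem bar_RE {m n a b : ℤ} {F G : Finset Edg} (h : F ∩ RE 0 m 0 n = G ∩ RE 0 m 0 n) (v : Vtx) :
    VA m n a b v F ↔ VA m n a b v G := by
  unfold VA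
  rw [← coe_inter, ← coe_inter, h]

end H49LP
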