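import Pool.Agent.Helper49K9.LP.Defs

/-!
The self-duality of the rectangle with the left and lower sides wired.
-/

set_option autoImplicit false

namespace H49LP

open H974 hiding bd
open H731C H731R H731A H731G Finset

/-- vertices to faces and faces to vertices -/
def dv (m n : ℤ) (p : Vtx) : Vtx := (m - p.1, n - p.2)

/-- edges to edges -/
def de (m n : ℤ) (e : Edg) : Edg := (m - e.1, n - e.2.1, !e.2.2)

/-- an edge outside of the wired sides -/
def inn (m n : ℤ) (e : Edg) : Prop :=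
  e ∈ RE 0 m 0 n ∧ ((e.2.2 = true ∧ 1 ≤ e.2.1) ∨ (e.2.2 = false ∧ 1 ≤ e.1))

open Classical in
/-- the involution of the edges -/
noncomputable def dh (m n : ℤ) (e : Edg) : Edg := if inn m n e then de m n e else e

open Classical in
/-- the dual configuration -/
noncomputable def hat (m n : ℤ) (F : Finset Edg) : Finset Edg :=
  (RE 0 m 0 n).filter (fun e => dh m n e ∉ F)

theorem dv_dv (m n : ℤ) (p : Vtx) : dv m n (dv m n p) = p := by
  unfold dv; ext
  · show m - (m - p.1) = p.1; ring
  · show n - (n - p.2) = p.2; ring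

theorem de_de (m n : ℤ) (e : Edg) : de m n (de m n e) = e := by
  obtain ⟨x, y, b⟩ := e
  unfold de
  simp

theorem inn_de {m n : ℤ} {e : Edg} (h : inn m n e) : inn m n (de m n e) := by
  obtain ⟨x, y, _ | _⟩ := e
  · obtain ⟨h1, h2⟩ := h
    rw [mem_RE_false] at h1
    simp only [Bool.false_eq_true, false_and, true_and, false_or] at h2
    refine ⟨?_, Or.inl ⟨rfl, ?_⟩⟩
    · unfold de
      simp only [Bool.not_false, mem_RE_true]
      omega
    · show 1 ≤ n - y
      omega
  · obtain ⟨h1, h2⟩ := h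
    rw [mem_RE_true] at h1
    simp only [Bool.true_eq_false, false_and, true_and, or_false] at h2
    refine ⟨?_, Or.inr ⟨rfl, ?_⟩⟩
    · unfold de
      simp only [Bool.not_true, mem_RE_false]
      omega
    · show 1 ≤ m - x
      omega

theorem dh_inn {m n : ℤ} {e : Edg} (h : inn m n e) : dh m n e = de m n e := by
  unfold dh
  rw [if_pos h]

theorem dh_not {m n : ℤ} {e : Edg} (h : ¬ inn m n e) : dh m n e = e := by
  unfold dh
  rw [if_neg h]

theorem dh_dh (m n : ℤ) (e : Edg) : dh m n (dh m n e) = e := by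
  by_cases h : inn m n e
  · rw [dh_inn h, dh_inn (inn_de h), de_de]
  · rw [dh_not h, dh_not h]

theorem dh_RE {m n : ℤ} {e : Edg} (h : e ∈ RE 0 m 0 n) : dh m n e ∈ RE 0 m 0 n := by
  by_cases h1 : inn m n e
  · rw [dh_inn h1]; exact (inn_de h1).1
  · rw [dh_not h1]; exact h

theorem mem_hat {m n : ℤ} {F : Finset Edg} {e : Edg} :
    e ∈ hat m n F ↔ e ∈ RE 0 m 0 n ∧ dh m n e ∉ F := by
  unfold hat
  simp only [mem_filter]

theorem hat_hat {m n : ℤ} {F : Finset Edg} (hF : F ⊆ RE 0 m 0 n) : hat m n (hat m n F) = F := by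
  ext e
  rw [mem_hat, mem_hat, dh_dh]
  constructor
  · rintro ⟨h1, h2⟩
    by_contra h3
    exact h2 ⟨dh_RE h1, h3⟩
  · intro h
    exact ⟨hF h, fun h2 => h2.2 h⟩

theorem hat_sub {m n : ℤ} {F : Finset Edg} : hat m n F ⊆ RE 0 m 0 n := by
  intro e he
  exact (mem_hat.1 he).1

/-- the dual configuration has the same law -/
theorem P2_hat (m n : ℤ) (E : Finset Edg → Prop) :
    P2 (RE 0 m 0 n) (fun F => E (hat m n F)) = P2 (RE 0 m 0 n) E := by
  rw [N1.P2_eq, N1.P2_eq]
  congr 1
  refine Finset.sum_nbij' (fun F => hat m n F) (fun F => hat m n F) ?_ ?_ ?_ ?_ ?_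
  · intro F _
    rw [mem_powerset]; exact hat_sub
  · intro F _
    rw [mem_powerset]; exact hat_sub
  · intro F hF
    exact hat_hat (mem_powerset.1 hF)
  · intro F hF
    exact hat_hat (mem_powerset.1 hF)
  · intro F _
    rfl

theorem src_de (m n : ℤ) (e : Edg) : src (de m n e) = dv m n (dtgt e) := rfl

theorem tgt_de (m n : ℤ) (e : Edg) : tgt (de m n e) = dv m n (dsrc e) := by
  obtain ⟨x, y, _ | _⟩ := e
  · show ((m - x + 1, n - y) : Vtx) = (m - (x - 1), n - y)
    ext
    · show m - x + 1 = m - (x - 1); ring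
    · rfl
  · show ((m - x, n - y + 1) : Vtx) = (m - x, n - (y - 1))
    ext
    · rfl
    · show n - y + 1 = n - (y - 1); ring

theorem dtgt_de (m n : ℤ) (e : Edg) : dtgt (de m n e) = dv m n (src e) := rfl

theorem dsrc_de (m n : ℤ) (e : Edg) : dsrc (de m n e) = dv m n (tgt e) := by
  obtain ⟨x, y, _ | _⟩ := e
  · show ((m - x, n - y - 1) : Vtx) = (m - x, n - (y + 1))
    ext
    · rfl
    · show n - y - 1 = n - (y + 1); ring
  · show ((m - x - 1, n - y) : Vtx) = (m - (x + 1), n - y)
    ext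
    · show m - x - 1 = m - (x + 1); ring
    · rfl

/-- a wired boundary vertex -/
theorem VA_wired {m n : ℤ} (hm : 1 ≤ m) (hn : 1 ≤ n) {u : Vtx} {F : Finset Edg}
    (h : (u.1 = 0 ∧ 0 ≤ u.2 ∧ u.2 ≤ n) ∨ (u.2 = 0 ∧ 0 ≤ u.1 ∧ u.1 ≤ m)) :
    VA m n (-n) m u F := by
  rcases h with ⟨h1, h2, h3⟩ | ⟨h1, h2, h3⟩
  · refine ⟨-u.2, by omega, ?_⟩
    rw [bd_neg hm hn (by omega) (by omega), neg_neg, ← h1]
    exact Reach.refl _ _
  · refine ⟨u.1, by omega, ?_⟩
    rw [bd_bot hm hn h2 h3, ← h1]
    exact Reach.refl _ _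

/-- a free outer face -/
theorem FB_free {m n : ℤ} (hm : 1 ≤ m) (hn : 1 ≤ n) {f : Vtx} {F : Finset Edg}
    (h : (f.1 = m ∧ 0 ≤ f.2 ∧ f.2 < n) ∨ (f.2 = n ∧ 0 ≤ f.1 ∧ f.1 < m)) :
    FB m n (-n) m f F := by
  rcases h with ⟨h1, h2, h3⟩ | ⟨h1, h2, h3⟩
  · refine ⟨m + f.2, by omega, ?_⟩
    rw [DPar.ofc_right hm hn (by omega) (by omega)]
    have : ((m, m + f.2 - m) : Vtx) = f := by
      ext
      · exact h1.symm
      · show m + f.2 - m = f.2; ring
    rw [this]
    exact DReach.refl _ _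
  · refine ⟨2 * m + n - f.1 - 1, by omega, ?_⟩
    rw [DPar.ofc_top hm hn (by omega) (by omega)]
    have : ((2 * m + n - (2 * m + n - f.1 - 1) - 1, n) : Vtx) = f := by
      ext
      · show 2 * m + n - (2 * m + n - f.1 - 1) - 1 = f.1; ring
      · exact h1.symm
    rw [this]
    exact DReach.refl _ _

/-- the coordinates of the dual of a free outer face -/
theorem dv_free {m n : ℤ} (hm : 1 ≤ m) (hn : 1 ≤ n) {j : ℤ} (hj : m ≤ j ∧ j < 2 * m + n) :
    (0 ≤ (ofc m n j).1 ∧ 0 ≤ (ofc m n j).2) ∧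
    (((dv m n (ofc m n j)).1 = 0 ∧ 0 ≤ (dv m n (ofc m n j)).2 ∧ (dv m n (ofc m n j)).2 ≤ n) ∨
      ((dv m n (ofc m n j)).2 = 0 ∧ 0 ≤ (dv m n (ofc m n j)).1 ∧ (dv m n (ofc m n j)).1 ≤ m)) := by
  rcases lt_or_ge j (m + n) with h | h
  · rw [DPar.ofc_right hm hn hj.1 h]
    unfold dv
    simp only
    omega
  · rw [DPar.ofc_top hm hn h hj.2]
    unfold dv
    simp only
    omega

/-- a face in the dual cluster of the free arc is a vertex in the cluster of the wired arc of the
dual configuration -/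
theorem FB_VA {m n : ℤ} (hm : 1 ≤ m) (hn : 1 ≤ n) {f : Vtx} {F : Finset Edg}
    (hf : 0 ≤ f.1 ∧ 0 ≤ f.2) (h : FB m n (-n) m f F) : VA m n (-n) m (dv m n f) (hat m n F) := by
  obtain ⟨j, hj, hr⟩ := h
  have hj' : m ≤ j ∧ j < 2 * m + n := by omega
  have key : ∀ g, DReach ((↑F : Set Edg)ᶜ ∩ ↑(RE 0 m 0 n)) (ofc m n j) g →
      VA m n (-n) m (dv m n (max 0 g.1, max 0 g.2)) (hat m n F) := by
    intro g hg
    induction hg with
    | refl =>
      obtain ⟨h1, h2⟩ := dv_free hm hn hj'
      rw [max_eq_right h1.1, max_eq_right h1.2]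
      exact VA_wired hm hn h2
    | @tail g g' _ hs ih =>
      obtain ⟨e, ⟨he, hR⟩, hc⟩ := hs
      by_cases hi : inn m n e
      · have hpos : (0 ≤ (dsrc e).1 ∧ 0 ≤ (dsrc e).2) ∧ (0 ≤ (dtgt e).1 ∧ 0 ≤ (dtgt e).2) := by
          obtain ⟨x, y, _ | _⟩ := e
          · rw [mem_coe, mem_RE_false] at hR
            obtain ⟨-, h2⟩ := hi
            simp only [Bool.false_eq_true, false_and, true_and, false_or] at h2
            simp only [dsrc_false, dtgt_mk]
            omega
          · rw [mem_coe, mem_RE_true] at hR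
            obtain ⟨-, h2⟩ := hi
            simp only [Bool.true_eq_false, false_and, true_and, or_false] at h2
            simp only [dsrc_true, dtgt_mk]
            omega
        have hmem : de m n e ∈ (↑(hat m n F) ∩ ↑(RE 0 m 0 n) : Set Edg) := by
          refine ⟨?_, (inn_de hi).1⟩
          rw [mem_coe, mem_hat, dh_inn (inn_de hi), de_de]
          exact ⟨(inn_de hi).1, he⟩
        have hadj : Adj (↑(hat m n F) ∩ ↑(RE 0 m 0 n) : Set Edg) (dv m n (dsrc e))
            (dv m n (dtgt e)) := ⟨de m n e, hmem, Or.inr ⟨src_de m n e, tgt_de m n e⟩⟩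
        rcases hc with ⟨h3, h4⟩ | ⟨h3, h4⟩
        · rw [← h3, max_eq_right hpos.1.1, max_eq_right hpos.1.2] at ih
          rw [← h4, max_eq_right hpos.2.1, max_eq_right hpos.2.2]
          exact VA_step ih hadj
        · rw [← h4, max_eq_right hpos.2.1, max_eq_right hpos.2.2] at ih
          rw [← h3, max_eq_right hpos.1.1, max_eq_right hpos.1.2]
          exact VA_step ih hadj.symm
      · have hsame : (max 0 (dsrc e).1, max 0 (dsrc e).2) =
            ((max 0 (dtgt e).1, max 0 (dtgt e).2) : Vtx) := by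
          obtain ⟨x, y, _ | _⟩ := e
          · rw [mem_coe] at hR
            have h0 : ¬ (1 ≤ x) := fun h => hi ⟨hR, Or.inr ⟨rfl, h⟩⟩
            simp only [dsrc_false, dtgt_mk]
            rw [max_eq_left (by omega : x - 1 ≤ 0), max_eq_left (by omega : x ≤ 0)]
          · rw [mem_coe] at hR
            have h0 : ¬ (1 ≤ y) := fun h => hi ⟨hR, Or.inl ⟨rfl, h⟩⟩
            simp only [dsrc_true, dtgt_mk]
            rw [max_eq_left (by omega : y - 1 ≤ 0), max_eq_left (by omega : y ≤ 0)]
        rcases hc with ⟨h3, h4⟩ | ⟨h3, h4⟩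
        · rw [← h4, ← hsame, h3]; exact ih
        · rw [← h3, hsame, h4]; exact ih
  have := key f hr
  rwa [max_eq_right hf.1, max_eq_right hf.2] at this

/-- the converse -/
theorem VA_FB {m n : ℤ} (hm : 1 ≤ m) (hn : 1 ≤ n) {f : Vtx} {F : Finset Edg}
    (hf : f.1 < m ∧ f.2 < n) (h : VA m n (-n) m (dv m n f) (hat m n F)) :
    FB m n (-n) m f F := by
  obtain ⟨i, hi, hr⟩ := h
  have key : ∀ u, Reach (↑(hat m n F) ∩ ↑(RE 0 m 0 n) : Set Edg) (bd m n i) u →
      (u.1 ≤ 0 ∨ u.2 ≤ 0) ∨ FB m n (-n) m (dv m n u) F := by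
    intro u hu
    induction hu with
    | refl =>
      left
      rcases le_total i 0 with h | h
      · rw [bd_neg hm hn hi.1 h]; exact Or.inl le_rfl
      · rw [bd_bot hm hn h hi.2]; exact Or.inr le_rfl
    | @tail u u' _ hs ih =>
      by_cases hu' : u'.1 ≤ 0 ∨ u'.2 ≤ 0
      · exact Or.inl hu'
      · right
        rw [not_or, not_le, not_le] at hu'
        obtain ⟨e, ⟨he, hR⟩, hc⟩ := hs
        rw [mem_coe, mem_hat] at he
        have hie : inn m n e := by
          refine ⟨he.1, ?_⟩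
          obtain ⟨x, y, _ | _⟩ := e
          · right
            refine ⟨rfl, ?_⟩
            simp only [src_mk, tgt_false] at hc ⊢
            rcases hc with ⟨h3, h4⟩ | ⟨h3, h4⟩
            · rw [← h4] at hu'; simp only at hu'; omega
            · rw [← h3] at hu'; simp only at hu'; omega
          · left
            refine ⟨rfl, ?_⟩
            simp only [src_mk, tgt_true] at hc ⊢
            rcases hc with ⟨h3, h4⟩ | ⟨h3, h4⟩
            · rw [← h4] at hu'; simp only at hu'; omega
            · rw [← h3] at hu'; simp only at hu'; omega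
        rw [dh_inn hie] at he
        have hadj : DAdj ((↑F : Set Edg)ᶜ ∩ ↑(RE 0 m 0 n)) (dv m n (src e)) (dv m n (tgt e)) :=
          ⟨de m n e, ⟨he.2, (inn_de hie).1⟩, Or.inr ⟨dsrc_de m n e, dtgt_de m n e⟩⟩
        have hadj' : DAdj ((↑F : Set Edg)ᶜ ∩ ↑(RE 0 m 0 n)) (dv m n u) (dv m n u') := by
          rcases hc with ⟨h3, h4⟩ | ⟨h3, h4⟩
          · rw [← h3, ← h4]; exact hadj
          · rw [← h3, ← h4]; exact hadj.symm
        have hFu : FB m n (-n) m (dv m n u) F := by
          rcases ih with h5 | h5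
          · apply FB_free hm hn
            obtain ⟨x, y, _ | _⟩ := e
            · have h6 := he.1
              rw [mem_RE_false] at h6
              simp only [src_mk, tgt_false] at hc
              unfold dv
              simp only
              rcases hc with ⟨h3, h4⟩ | ⟨h3, h4⟩ <;> subst h3 <;> subst h4 <;>
                simp only at h5 hu' ⊢ <;> omega
            · have h6 := he.1
              rw [mem_RE_true] at h6
              simp only [src_mk, tgt_true] at hc
              unfold dv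
              simp only
              rcases hc with ⟨h3, h4⟩ | ⟨h3, h4⟩ <;> subst h3 <;> subst h4 <;>
                simp only at h5 hu' ⊢ <;> omega
          · exact h5
        exact FB_step hFu hadj'
  rcases key _ hr with h | h
  · exfalso
    unfold dv at h
    simp only at h
    omega
  · rwa [dv_dv] at h

end H49LP
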