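import Pool.Agent.Helper49K9.LP.Ring
import Pool.Agent.H731R5.Gr.U2

/-!
Four open crossings around a box joined to the wired arc belong to the wired cluster.
-/

set_option autoImplicit false

namespace H49LP

open H974 hiding bd
open H731C H731R H731A H731G Finset

theorem wdg_reach {m n a b : ℤ} {F S : Finset Edg} (hS : S ⊆ RE 0 m 0 n) {u v : Vtx}
    (hu : VA m n a b u F) (h : Reach (↑F ∩ ↑S) u v) :
    Reach (↑(wdg m n a b F) ∩ ↑S) u v ∧ VA m n a b v F := by
  induction h with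
  | refl => exact ⟨Reach.refl _ _, hu⟩
  | @tail v w _ hs ih =>
    obtain ⟨e, ⟨he, hR⟩, hc⟩ := hs
    have he' : e ∈ F := he
    have hR' : e ∈ RE 0 m 0 n := hS hR
    have hw : VA m n a b w F := VA_step ih.2 ⟨e, ⟨he, hR'⟩, hc⟩
    refine ⟨ih.1.trans (Adj.reach ⟨e, ⟨?_, hR⟩, hc⟩), hw⟩
    rw [mem_coe, mem_wdg]
    refine ⟨hR', he', ?_⟩
    rcases hc with ⟨h3, h4⟩ | ⟨h3, h4⟩
    · rw [h3]; exact ih.2
    · rw [h3]; exact hw

theorem Cr_wdg {m n a b x y h : ℤ} {F : Finset Edg} (h1 : 1 ≤ h) (hx : 2 * h ≤ x)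
    (hxm : x + 2 * h ≤ m) (hy : 2 * h ≤ y) (hyn : y + 2 * h ≤ n)
    (hBX : BX m n a b (x, y) h F) (hC : U2.Cr x y h F) : U2.Cr x y h (wdg m n a b F) := by
  obtain ⟨⟨⟨t, t', ht, ht', hT⟩, ⟨b1, b', hb, hb', hB⟩⟩, ⟨r, r', hr, hr', hR⟩,
    ⟨l, l', hl, hl', hL⟩⟩ := hC
  have s1 : LRE (x - 2 * h) (x + 2 * h) (y + h) (y + 2 * h) ⊆
      RE (x - 2 * h) (x + 2 * h) (y - 2 * h) (y + 2 * h) :=
    LRE_subset_RE.trans (RE_subset le_rfl le_rfl (by omega) le_rfl)
  have s2 : LRE (x - 2 * h) (x + 2 * h) (y - 2 * h) (y - h) ⊆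
      RE (x - 2 * h) (x + 2 * h) (y - 2 * h) (y + 2 * h) :=
    LRE_subset_RE.trans (RE_subset le_rfl le_rfl le_rfl (by omega))
  have s3 : TBE (x + h) (x + 2 * h) (y - 2 * h) (y + 2 * h) ⊆
      RE (x - 2 * h) (x + 2 * h) (y - 2 * h) (y + 2 * h) :=
    TBE_subset_RE.trans (RE_subset (by omega) le_rfl le_rfl le_rfl)
  have s4 : TBE (x - 2 * h) (x - h) (y - 2 * h) (y + 2 * h) ⊆
      RE (x - 2 * h) (x + 2 * h) (y - 2 * h) (y + 2 * h) :=
    TBE_subset_RE.trans (RE_subset le_rfl (by omega) le_rfl le_rfl)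
  have sub1 : RE (x - 2 * h) (x + 2 * h) (y - 2 * h) (y + 2 * h) ⊆ RE 0 m 0 n :=
    RE_subset (by omega) (by omega) (by omega) (by omega)
  have hT' := hT.mono (Set.inter_subset_inter_right (↑F)
    (by exact_mod_cast LRE_subset_RE : (↑(LRE (x - 2 * h) (x + 2 * h) (y + h) (y + 2 * h)) :
      Set Edg) ⊆ _))
  have hB' := hB.mono (Set.inter_subset_inter_right (↑F)
    (by exact_mod_cast LRE_subset_RE : (↑(LRE (x - 2 * h) (x + 2 * h) (y - 2 * h) (y - h)) :
      Set Edg) ⊆ _))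
  have hR' := hR.mono (Set.inter_subset_inter_right (↑F)
    (by exact_mod_cast TBE_subset_RE : (↑(TBE (x + h) (x + 2 * h) (y - 2 * h) (y + 2 * h)) :
      Set Edg) ⊆ _))
  have hL' := hL.mono (Set.inter_subset_inter_right (↑F)
    (by exact_mod_cast TBE_subset_RE : (↑(TBE (x - 2 * h) (x - h) (y - 2 * h) (y + 2 * h)) :
      Set Edg) ⊆ _))
  have mTR : Reach (↑F ∩ ↑(RE (x - 2 * h) (x + 2 * h) (y - 2 * h) (y + 2 * h)))
      (x - 2 * h, t) (r, y - 2 * h) :=
    cross_meet (by omega) (by omega) le_rfl (by omega) (by omega) le_rfl hT'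
      (by simp only; omega) le_rfl hR' (by simp only; omega) le_rfl
  have mBR : Reach (↑F ∩ ↑(RE (x - 2 * h) (x + 2 * h) (y - 2 * h) (y + 2 * h)))
      (x - 2 * h, b1) (r, y - 2 * h) :=
    cross_meet (by omega) (by omega) le_rfl le_rfl (by omega) (by omega) hB'
      (by simp only; omega) le_rfl hR' le_rfl (by simp only; omega)
  have mTL : Reach (↑F ∩ ↑(RE (x - 2 * h) (x + 2 * h) (y - 2 * h) (y + 2 * h)))
      (x - 2 * h, t) (l, y - 2 * h) :=
    cross_meet le_rfl (by omega) (by omega) (by omega) (by omega) le_rfl hT' le_rfl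
      (by simp only; omega) hL' (by simp only; omega) le_rfl
  have hz : ∀ u v : Vtx, inR (x - h) (x + h) (y - h) (y + h) u →
      (v.1 = x - 2 * h ∨ v.1 = x + 2 * h ∨ v.2 = y - 2 * h ∨ v.2 = y + 2 * h) →
      Reach (↑F ∩ ↑(RE (x - 2 * h) (x + 2 * h) (y - 2 * h) (y + 2 * h))) u v →
      Reach (↑F ∩ ↑(RE (x - 2 * h) (x + 2 * h) (y - 2 * h) (y + 2 * h))) u (r, y - 2 * h) := by
    intro u v hu hv hP
    unfold inR at hu
    rcases hv with hv | hv | hv | hv
    · have m : Reach (↑F ∩ ↑(RE (x - 2 * h) (x + 2 * h) (y - 2 * h) (y + 2 * h))) v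
          (l, y - 2 * h) :=
        cross_meet le_rfl (by omega) (by omega) le_rfl (by omega) le_rfl hP.symm hv.le
          (show x - h ≤ u.1 by omega) hL' le_rfl le_rfl
      exact hP.trans (m.trans (mTL.symm.trans mTR))
    · exact cross_meet (by omega) (by omega) le_rfl le_rfl (by omega) le_rfl hP (by omega) hv.ge
        hR' le_rfl le_rfl
    · have m : Reach (↑F ∩ ↑(RE (x - 2 * h) (x + 2 * h) (y - 2 * h) (y + 2 * h)))
          (x - 2 * h, b1) v :=
        cross_meet le_rfl (by omega) le_rfl le_rfl (by omega) (by omega) hB' le_rfl le_rfl hP.symm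
          hv.le (show y - h ≤ u.2 by omega)
      exact hP.trans (m.symm.trans mBR)
    · have m : Reach (↑F ∩ ↑(RE (x - 2 * h) (x + 2 * h) (y - 2 * h) (y + 2 * h)))
          (x - 2 * h, t) u :=
        cross_meet le_rfl (by omega) le_rfl (by omega) (by omega) le_rfl hT' le_rfl le_rfl hP
          (by omega) hv.ge
      exact m.symm.trans mTR
  obtain ⟨i, u, hi, hu, hru⟩ := hBX
  simp only at hu
  rw [abs_le, abs_le] at hu
  obtain ⟨w, -, k2, k3⟩ := first_exit (a := x - 2 * h) (b := x + 2 * h) (c := y - 2 * h)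
    (d := y + 2 * h) (u := u) (by unfold inR; omega) hru.symm (by
      have := U2.bd_side (m := m) (n := n) (by omega) (by omega) i
      omega)
  have m1 := hz u w (by unfold inR; omega) k2
    (k3.mono (by rintro e ⟨⟨h4, -⟩, h5⟩; exact ⟨h4, h5⟩))
  have hVu : VA m n a b u F := ⟨i, hi, hru⟩
  have vz := (wdg_reach sub1 hVu m1).2
  have vT := (wdg_reach sub1 vz mTR.symm).2
  have vB := (wdg_reach sub1 vz mBR.symm).2
  have vL := (wdg_reach sub1 vT mTL).2
  refine ⟨⟨⟨t, t', ht, ht', (wdg_reach (s1.trans sub1) vT hT).1⟩,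
    ⟨b1, b', hb, hb', (wdg_reach (s2.trans sub1) vB hB).1⟩⟩,
    ⟨r, r', hr, hr', (wdg_reach (s3.trans sub1) vz hR).1⟩,
    ⟨l, l', hl, hl', (wdg_reach (s4.trans sub1) vL hL).1⟩⟩

/-- a path in a box -/
theorem hpath {G : Set Edg} {y c d : ℤ} (hcd : c ≤ d)
    (h : ∀ t, c ≤ t → t < d → ((t, y, true) : Edg) ∈ G) : Reach G (c, y) (d, y) := by
  induction d, hcd using Int.leInduction with
  | base => exact Reach.refl _ _
  | succ d hd ih =>
    refine (ih fun t h1 h2 => h t h1 (by omega)).trans (Adj.reach ?_)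
    exact ⟨(d, y, true), h d hd (by omega), Or.inl ⟨rfl, rfl⟩⟩

theorem box_path {A B C D : ℤ} {G : Set Edg} (hG : ∀ e ∈ RE A B C D, e ∈ G) {u v : Vtx}
    (hu : inR A B C D u) (hv : inR A B C D v) : Reach G u v := by
  obtain ⟨p, q⟩ := u
  obtain ⟨r, s⟩ := v
  unfold inR at hu hv
  simp only at hu hv
  have h1 : Reach G (p, q) (r, q) := by
    rcases le_total p r with h | h
    · exact hpath h (fun t h2 h3 => hG _ (by rw [mem_RE_true]; omega))
    · exact (hpath h (fun t h2 h3 => hG _ (by rw [mem_RE_true]; omega))).symm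
  have h2 : Reach G (r, q) (r, s) := by
    rcases le_total q s with h | h
    · exact N3.vpath h (fun t h2 h3 => hG _ (by rw [mem_RE_false]; omega))
    · exact (N3.vpath h (fun t h2 h3 => hG _ (by rw [mem_RE_false]; omega))).symm
  exact h1.trans h2

/-- an open ring joined to the wired arc: its centre is on the side of the wired arc -/
theorem WS_of_ring {m n a b x y h : ℤ} {F : Finset Edg} (h1 : 1 ≤ h) (hx : 2 * h ≤ x)
    (hxm : x + 2 * h ≤ m) (hy : 2 * h ≤ y) (hyn : y + 2 * h ≤ n)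
    (hBX : BX m n a b (x, y) h F) (hC : U2.Cr x y h F) : WS m n a b (x, y) F := by
  obtain ⟨i, u, hi, hu, hru⟩ := hBX
  simp only at hu
  rw [abs_le, abs_le] at hu
  have hVu : VA m n a b u F := ⟨i, hi, hru⟩
  refine WS_step (VA_WS hVu) (box_path (A := x - h) (B := x + h) (C := y - h) (D := y + h)
    ?_ (by unfold inR; omega) (by unfold inR; simp only; omega))
  intro e he
  have heR : e ∈ RE 0 m 0 n := RE_subset (by omega) (by omega) (by omega) (by omega) he
  rw [mem_coe, mem_sdiff, mem_bar]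
  refine ⟨heR, ?_⟩
  rintro ⟨-, -, h3, h4⟩
  have key : ∀ f : Vtx, FB m n a b f F →
      ¬ ((x - h ≤ f.1 ∧ f.1 < x + h) ∧ (y - h ≤ f.2 ∧ f.2 < y + h)) := by
    rintro f ⟨j, hj, hr⟩ hf
    refine ring_block h1 hC hf (g := ofc m n j) ?_ (hr.symm.mono (fun e he => he.1))
    have := U1.ofc_cases m n j
    unfold OB
    omega
  have k1 := key _ h3
  have k2 := key _ h4
  obtain ⟨p, q, _ | _⟩ := e
  · simp only [dsrc_false, dtgt_mk] at k1 k2
    rw [mem_RE_false] at he
    omega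
  · simp only [dsrc_true, dtgt_mk] at k1 k2
    rw [mem_RE_true] at he
    omega

end H49LP
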