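import Pool.Agent.Helper49K9.LP.Dual
import Pool.Agent.Helper49K9.LP.Ring2

/-!
The side of the free arc, through the dual configuration.
-/

set_option autoImplicit false

namespace H49LP

open H974 hiding bd
open H731C H731R H731A H731G Finset

/-- the edges of the wired cluster of the dual configuration are the duals of the closed edges of
the dual cluster -/
theorem wdg_bar {m n : ℤ} (hm : 1 ≤ m) (hn : 1 ≤ n) {F : Finset Edg} {e : Edg} (hi : inn m n e)
    (h : de m n e ∈ wdg m n (-n) m (hat m n F)) : e ∈ bar m n (-n) m F := by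
  rw [mem_wdg, mem_hat, dh_inn (inn_de hi), de_de, src_de] at h
  obtain ⟨h1, ⟨-, h3⟩, h4⟩ := h
  have h5 : FB m n (-n) m (dtgt e) F := by
    by_cases h6 : (dtgt e).1 < m ∧ (dtgt e).2 < n
    · exact VA_FB hm hn h6 h4
    · apply FB_free hm hn
      have hR := hi.1
      obtain ⟨x, y, _ | _⟩ := e
      · rw [mem_RE_false] at hR
        rw [dtgt_mk] at h6 ⊢
        simp only at h6 ⊢
        omega
      · rw [mem_RE_true] at hR
        rw [dtgt_mk] at h6 ⊢
        simp only at h6 ⊢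
        omega
  rw [mem_bar]
  exact ⟨hi.1, h3, (FB_edge h3 hi.1).2 h5, h5⟩

/-- a path to a vertex outside of the wired sides can be shortened to a path which avoids the
wired sides -/
theorem WS_inn {m n : ℤ} (hm : 1 ≤ m) (hn : 1 ≤ n) {v : Vtx} {F : Finset Edg}
    (h : WS m n (-n) m v F) : ∃ u : Vtx, ((u.1 = 0 ∧ 0 ≤ u.2 ∧ u.2 ≤ n) ∨
      (u.2 = 0 ∧ 0 ≤ u.1 ∧ u.1 ≤ m)) ∧
      Reach {e | inn m n e ∧ e ∉ bar m n (-n) m F} u v := by
  obtain ⟨i, hi, hr⟩ := h
  induction hr with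
  | refl =>
    refine ⟨bd m n i, ?_, Reach.refl _ _⟩
    rcases le_total i 0 with h | h
    · rw [bd_neg hm hn hi.1 h]
      exact Or.inl ⟨rfl, show (0 : ℤ) ≤ -i by omega, show -i ≤ n by omega⟩
    · rw [bd_bot hm hn h hi.2]
      exact Or.inr ⟨rfl, h, hi.2⟩
  | @tail v w _ hs ih =>
    obtain ⟨u, hu, hr⟩ := ih
    obtain ⟨e, he, hc⟩ := hs
    rw [mem_coe, mem_sdiff] at he
    by_cases hi : inn m n e
    · exact ⟨u, hu, hr.trans (Adj.reach ⟨e, ⟨hi, he.2⟩, hc⟩)⟩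
    · refine ⟨w, ?_, Reach.refl _ _⟩
      have hR := he.1
      obtain ⟨x, y, _ | _⟩ := e
      · have h0 : ¬ (1 ≤ x) := fun h => hi ⟨hR, Or.inr ⟨rfl, h⟩⟩
        rw [mem_RE_false] at hR
        simp only [src_mk, tgt_false] at hc
        left
        rcases hc with ⟨h3, h4⟩ | ⟨h3, h4⟩
        · rw [← h4]; simp only; omega
        · rw [← h3]; simp only; omega
      · have h0 : ¬ (1 ≤ y) := fun h => hi ⟨hR, Or.inl ⟨rfl, h⟩⟩
        rw [mem_RE_true] at hR
        simp only [src_mk, tgt_true] at hc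
        right
        rcases hc with ⟨h3, h4⟩ | ⟨h3, h4⟩
        · rw [← h4]; simp only; omega
        · rw [← h3]; simp only; omega

/-- the dual of a path on the side of the wired arc -/
theorem WS_dual {m n : ℤ} (hm : 1 ≤ m) (hn : 1 ≤ n) {u v : Vtx} {F : Finset Edg}
    (h : Reach {e | inn m n e ∧ e ∉ bar m n (-n) m F} u v) :
    DReach (↑(wdg m n (-n) m (hat m n F)) : Set Edg)ᶜ (dv m n u) (dv m n v) := by
  induction h with
  | refl => exact DReach.refl _ _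
  | @tail v w _ hs ih =>
    obtain ⟨e, ⟨hi, he⟩, hc⟩ := hs
    refine ih.trans (DAdj.reach ?_)
    have hadj : DAdj (↑(wdg m n (-n) m (hat m n F)) : Set Edg)ᶜ (dv m n (src e))
        (dv m n (tgt e)) :=
      ⟨de m n e, fun h => he (wdg_bar hm hn hi h), Or.inr ⟨dsrc_de m n e, dtgt_de m n e⟩⟩
    rcases hc with ⟨h3, h4⟩ | ⟨h3, h4⟩
    · rw [← h3, ← h4]; exact hadj
    · rw [← h3, ← h4]; exact hadj.symm

/-- an open ring of the dual configuration joined to the wired arc: its centre is on the side of the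
free arc -/
theorem FS_of_ring {m n h : ℤ} {v : Vtx} {F : Finset Edg} (h1 : 1 ≤ h)
    (hx : 2 * h ≤ (dv m n v).1) (hxm : (dv m n v).1 + 2 * h ≤ m) (hy : 2 * h ≤ (dv m n v).2)
    (hyn : (dv m n v).2 + 2 * h ≤ n)
    (hBX : BX m n (-n) m (dv m n v) h (hat m n F))
    (hC : U2.Cr (dv m n v).1 (dv m n v).2 h (hat m n F)) : ¬ WS m n (-n) m v F := by
  have hm : 1 ≤ m := by omega
  have hn : 1 ≤ n := by omega
  intro hWS
  obtain ⟨u, hu, hr⟩ := WS_inn hm hn hWS
  have hD := WS_dual hm hn hr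
  have hC' := Cr_wdg h1 hx hxm hy hyn hBX hC
  refine ring_block h1 hC' (f := dv m n v) (g := dv m n u) ?_ ?_ hD.symm
  · omega
  · unfold OB
    have e1 : (dv m n u).1 = m - u.1 := rfl
    have e2 : (dv m n u).2 = n - u.2 := rfl
    rw [e1, e2]
    omega

/-- the column below a vertex on the side of the free arc -/
theorem FS_col {m n : ℤ} (hm : 1 ≤ m) (hn : 1 ≤ n) {x y : ℤ} (hx : 0 ≤ x ∧ x ≤ m)
    (hy : 0 ≤ y ∧ y ≤ n) {F : Finset Edg} (h : ¬ WS m n (-n) m (x, y) F) :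
    ∃ t, (0 ≤ t ∧ t < y) ∧ VA m n (-n) m (m - x, n - t) (hat m n F) := by
  by_contra hno
  apply h
  refine ⟨x, by omega, ?_⟩
  rw [bd_bot hm hn hx.1 hx.2]
  refine N3.vpath hy.1 (fun t h1 h2 => ?_)
  rw [mem_coe, mem_sdiff]
  refine ⟨by rw [mem_RE_false]; omega, fun h3 => hno ⟨t, ⟨h1, h2⟩, ?_⟩⟩
  rw [mem_bar] at h3
  exact FB_VA (f := (x, t)) hm hn ⟨hx.1, h1⟩ h3.2.2.2

/-- the row on the left of a vertex on the side of the free arc -/
theorem FS_row {m n : ℤ} (hm : 1 ≤ m) (hn : 1 ≤ n) {x y : ℤ} (hx : 0 ≤ x ∧ x ≤ m)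
    (hy : 0 ≤ y ∧ y ≤ n) {F : Finset Edg} (h : ¬ WS m n (-n) m (x, y) F) :
    ∃ t, (0 ≤ t ∧ t < x) ∧ VA m n (-n) m (m - t, n - y) (hat m n F) := by
  by_contra hno
  apply h
  refine ⟨-y, by omega, ?_⟩
  rw [bd_neg hm hn (by omega) (by omega), neg_neg]
  refine hpath hx.1 (fun t h1 h2 => ?_)
  rw [mem_coe, mem_sdiff]
  refine ⟨by rw [mem_RE_true]; omega, fun h3 => hno ⟨t, ⟨h1, h2⟩, ?_⟩⟩
  rw [mem_bar] at h3
  exact FB_VA (f := (t, y)) hm hn ⟨h1, hy.1⟩ h3.2.2.2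

/-- a vertex with closed edges next to the dual cluster of the free arc -/
theorem FS_small {m n : ℤ} (hm : 1 ≤ m) (hn : 1 ≤ n) {x y : ℤ} (hx : 1 ≤ x ∧ x ≤ m)
    (hy : 1 ≤ y ∧ y ≤ n) {F : Finset Edg} (h : FB m n (-n) m (x - 1, y - 1) F)
    (e1 : ((x, y, true) : Edg) ∉ F) (e2 : ((x - 1, y, true) : Edg) ∉ F)
    (e3 : ((x, y, false) : Edg) ∉ F) (e4 : ((x, y - 1, false) : Edg) ∉ F) :
    ¬ WS m n (-n) m (x, y) F := by
  have r2 : ((x - 1, y, true) : Edg) ∈ RE 0 m 0 n := by rw [mem_RE_true]; omega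
  have r4 : ((x, y - 1, false) : Edg) ∈ RE 0 m 0 n := by rw [mem_RE_false]; omega
  have f2 : FB m n (-n) m (x - 1, y) F := (FB_edge e2 r2).1 h
  have f4 : FB m n (-n) m (x, y - 1) F := (FB_edge e4 r4).1 h
  rintro ⟨i, hi, hr⟩
  rcases Relation.ReflTransGen.cases_tail hr with h1 | ⟨w, -, e, he, hc⟩
  · rcases le_total i 0 with h | h
    · rw [bd_neg hm hn hi.1 h, Prod.mk.injEq] at h1; omega
    · rw [bd_bot hm hn h hi.2, Prod.mk.injEq] at h1; omega
  · rw [mem_coe, mem_sdiff, mem_bar] at he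
    apply he.2
    refine ⟨he.1, ?_⟩
    obtain ⟨p, q, _ | _⟩ := e
    · have hR := he.1
      simp only [src_mk, tgt_false, dsrc_false, dtgt_mk] at hc ⊢
      rcases hc with ⟨-, h4⟩ | ⟨h3, -⟩
      · rw [Prod.mk.injEq] at h4
        have h5 : p = x := h4.1
        have h6 : q = y - 1 := by omega
        subst h5 h6
        exact ⟨e4, h, f4⟩
      · rw [Prod.mk.injEq] at h3
        have h5 : p = x := h3.1
        have h6 : q = y := h3.2
        subst h5 h6
        exact ⟨e3, f2, (FB_edge e3 hR).1 f2⟩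
    · have hR := he.1
      simp only [src_mk, tgt_true, dsrc_true, dtgt_mk] at hc ⊢
      rcases hc with ⟨-, h4⟩ | ⟨h3, -⟩
      · rw [Prod.mk.injEq] at h4
        have h5 : p = x - 1 := by omega
        have h6 : q = y := h4.2
        subst h5 h6
        exact ⟨e2, h, f2⟩
      · rw [Prod.mk.injEq] at h3
        have h5 : p = x := h3.1
        have h6 : q = y := h3.2
        subst h5 h6
        exact ⟨e1, f4, (FB_edge e1 hR).1 f4⟩

end H49LP
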