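import Pool.Agent.Helper49K9.LP.Cover
import Pool.Agent.Helper49K9.LP.Alg
import Pool.Agent.Helper49K9.LP.Dual2

/-!
Lower bounds.
-/

set_option autoImplicit false

namespace H49LP

open H974 hiding bd
open H731C H731R H731A H731G Finset

theorem BX_incr (S : Finset Edg) (m n a b : ℤ) (v : Vtx) (h : ℤ) : IncrE S (BX m n a b v h) := by
  rintro F G hFG _ ⟨i, u, hi, hu, hr⟩
  exact ⟨i, u, hi, hu, hr.mono (Set.inter_subset_inter_left _ (by exact_mod_cast hFG))⟩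

theorem ring_prob : ∃ δ : ℝ, 0 < δ ∧ ∀ m n a b x y h : ℤ, 1 ≤ h → 2 * h ≤ x → x + 2 * h ≤ m →
    2 * h ≤ y → y + 2 * h ≤ n →
    δ * P2 (RE 0 m 0 n) (BX m n a b (x, y) h) ≤
      P2 (RE 0 m 0 n) (fun F => BX m n a b (x, y) h F ∧ U2.Cr x y h F) := by
  obtain ⟨δ, hδ, H⟩ := H985IL.IL2.rswK 4
  refine ⟨δ ^ 4, by positivity, ?_⟩
  intro m n a b x y h h1 hx hxm hy hyn
  have sub1 : RE (x - 2 * h) (x + 2 * h) (y - 2 * h) (y + 2 * h) ⊆ RE 0 m 0 n :=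
    RE_subset (by omega) (by omega) (by omega) (by omega)
  have s1 : LRE (x - 2 * h) (x + 2 * h) (y + h) (y + 2 * h) ⊆ RE 0 m 0 n :=
    LRE_subset_RE.trans ((RE_subset le_rfl le_rfl (by omega) le_rfl).trans sub1)
  have s2 : LRE (x - 2 * h) (x + 2 * h) (y - 2 * h) (y - h) ⊆ RE 0 m 0 n :=
    LRE_subset_RE.trans ((RE_subset le_rfl le_rfl le_rfl (by omega)).trans sub1)
  have s3 : TBE (x + h) (x + 2 * h) (y - 2 * h) (y + 2 * h) ⊆ RE 0 m 0 n :=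
    TBE_subset_RE.trans ((RE_subset (by omega) le_rfl le_rfl le_rfl).trans sub1)
  have s4 : TBE (x - 2 * h) (x - h) (y - 2 * h) (y + 2 * h) ⊆ RE 0 m 0 n :=
    TBE_subset_RE.trans ((RE_subset le_rfl (by omega) le_rfl le_rfl).trans sub1)
  have hb : ∀ w l : ℤ, 0 < w → 1 ≤ l → w ≤ ((4 : ℕ) : ℤ) * l → δ ≤ hh (1/2) w l := H
  have k1 : δ ≤ P2 (RE 0 m 0 n) (LRc (x - 2 * h) (x + 2 * h) (y + h) (y + 2 * h)) := by
    unfold P2
    rw [pr_LRc (1/2) s1]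
    exact hb _ _ (by omega) (by omega) (by push_cast; omega)
  have k2 : δ ≤ P2 (RE 0 m 0 n) (LRc (x - 2 * h) (x + 2 * h) (y - 2 * h) (y - h)) := by
    unfold P2
    rw [pr_LRc (1/2) s2]
    exact hb _ _ (by omega) (by omega) (by push_cast; omega)
  have k3 : δ ≤ P2 (RE 0 m 0 n) (TBc (x + h) (x + 2 * h) (y - 2 * h) (y + 2 * h)) := by
    unfold P2
    rw [pr_TBc (1/2) s3]
    exact hb _ _ (by omega) (by omega) (by push_cast; omega)
  have k4 : δ ≤ P2 (RE 0 m 0 n) (TBc (x - 2 * h) (x - h) (y - 2 * h) (y + 2 * h)) := by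
    unfold P2
    rw [pr_TBc (1/2) s4]
    exact hb _ _ (by omega) (by omega) (by push_cast; omega)
  have j1 := U2.step (LRc_incr _ _ _ _ _) (LRc_incr _ _ _ _ _) hδ.le k1 hδ.le k2
  have j2 := U2.step (TBc_incr _ _ _ _ _) (TBc_incr _ _ _ _ _) hδ.le k3 hδ.le k4
  have j3 := U2.step (fun F G hFG _ hF => ⟨hF.1.mono hFG, hF.2.mono hFG⟩)
    (fun F G hFG _ hF => ⟨hF.1.mono hFG, hF.2.mono hFG⟩) (by positivity) j1 (by positivity) j2
  have iC : IncrE (RE 0 m 0 n) (U2.Cr x y h) := fun F G hFG _ hF => hF.mono hFG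
  have hP0 : 0 ≤ P2 (RE 0 m 0 n) (BX m n a b (x, y) h) := Pr_nonneg okhalf2 _ _
  have j5 := U2.step (BX_incr _ m n a b (x, y) h) iC hP0 le_rfl (by positivity) j3
  refine le_trans (le_of_eq ?_) j5
  ring

/-- the lower bound for the probability of passing near a vertex -/
theorem hit_low (K : ℕ) : ∃ c : ℝ, 0 < c ∧ ∀ (m n h : ℤ) (v : Vtx), 1 ≤ m → 1 ≤ n →
    m ≤ K * n → n ≤ K * m → (0 ≤ v.1 ∧ v.1 ≤ m) → (0 ≤ v.2 ∧ v.2 ≤ n) → 0 ≤ h →
    2 * h ≤ min (px m v) (py n v) → min (px m v) (py n v) ≤ 3 * (h + 1) →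
    c * (Ft m n v.1 v.2 * Wt m n v.1 v.2) ^ ((1 : ℝ) / 3) ≤
      P2 (RE 0 m 0 n) (HitB m n (-n) m v h) := by
  obtain ⟨c, _, hc, _, H⟩ := H731G.green_scale H985T.st_A H934SL.st_L K
  refine ⟨c / 2, by positivity, ?_⟩
  intro m n h v hm hn h1 h2 hv1 hv2 hh hρ hρ'
  have e1 := (H m n (-n) m h v hm hn h1 h2 (by omega) (by omega) hv1 hv2 hh hρ).1
  refine le_trans ?_ e1
  have hpx := px_pos hv1.1 hv1.2
  have hpy := py_pos hv2.1 hv2.2
  have hρ1 : 1 ≤ min (px m v) (py n v) := le_min hpx hpy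
  generalize min (px m v) (py n v) = ρ at *
  have hρR : (0 : ℝ) < (ρ : ℝ) := by exact_mod_cast (by omega : (0 : ℤ) < ρ)
  have hFW := (HH_bounds K hm hn h1 h2 hv1 hv2).1
  have hFW0 : 0 ≤ Ft m n v.1 v.2 * Wt m n v.1 v.2 := by
    have p1 : (0 : ℝ) ≤ ((v.1 + 1 : ℤ) : ℝ) := by exact_mod_cast (by omega : 0 ≤ v.1 + 1)
    have p2 : (0 : ℝ) ≤ ((v.2 + 1 : ℤ) : ℝ) := by exact_mod_cast (by omega : 0 ≤ v.2 + 1)
    have p3 : (0 : ℝ) ≤ ((m + 1 - v.1 + (v.2 + 1) : ℤ) : ℝ) := by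
      exact_mod_cast (by omega : 0 ≤ m + 1 - v.1 + (v.2 + 1))
    have p4 : (0 : ℝ) ≤ ((n + 1 - v.2 + (v.1 + 1) : ℤ) : ℝ) := by
      exact_mod_cast (by omega : 0 ≤ n + 1 - v.2 + (v.1 + 1))
    have p5 : (0 : ℝ) ≤ ((m + 1 - v.1 : ℤ) : ℝ) := by exact_mod_cast (by omega : 0 ≤ m + 1 - v.1)
    have p6 : (0 : ℝ) ≤ ((n + 1 - v.2 : ℤ) : ℝ) := by exact_mod_cast (by omega : 0 ≤ n + 1 - v.2)
    unfold Ft Wt
    positivity
  have q1 : (1 : ℝ) / 2 ≤ (((h + 1 : ℤ) : ℝ) / (ρ : ℝ)) ^ ((1 : ℝ) / 4) := by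
    have r0 : (0 : ℝ) ≤ ((h + 1 : ℤ) : ℝ) / (ρ : ℝ) := by
      apply div_nonneg _ hρR.le
      exact_mod_cast (by omega : (0 : ℤ) ≤ h + 1)
    have r1 : (1 : ℝ) ≤ 2 ^ (4 : ℕ) * (((h + 1 : ℤ) : ℝ) / (ρ : ℝ)) := by
      rw [← mul_div_assoc, le_div_iff₀ hρR, one_mul]
      have : ((ρ : ℤ) : ℝ) ≤ 16 * ((h + 1 : ℤ) : ℝ) := by
        exact_mod_cast (by omega : ρ ≤ 16 * (h + 1))
      linarith
    have r2 := Sc.quart_le (x := 1) (y := ((h + 1 : ℤ) : ℝ) / (ρ : ℝ)) (k := 2) zero_le_one r0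
      (by norm_num) r1
    rw [Real.one_rpow] at r2
    linarith
  have q2 : (Ft m n v.1 v.2 * Wt m n v.1 v.2) ^ ((1 : ℝ) / 3) ≤
      HH m n (-n) m v ^ ((1 : ℝ) / 3) := Real.rpow_le_rpow hFW0 hFW (by norm_num)
  have q3 : 0 ≤ (Ft m n v.1 v.2 * Wt m n v.1 v.2) ^ ((1 : ℝ) / 3) := Real.rpow_nonneg hFW0 _
  have q4 := mul_le_mul q1 q2 q3 (by positivity)
  calc c / 2 * (Ft m n v.1 v.2 * Wt m n v.1 v.2) ^ ((1 : ℝ) / 3) =
        c * (1 / 2 * (Ft m n v.1 v.2 * Wt m n v.1 v.2) ^ ((1 : ℝ) / 3)) := by ring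
    _ ≤ _ := mul_le_mul_of_nonneg_left q4 hc.le

theorem HitB_BX {m n a b h : ℤ} {v : Vtx} {F : Finset Edg} (hF : HitB m n a b v h F) :
    BX m n a b v h F := by
  obtain ⟨u, hu, ⟨i, hi, hr⟩, -⟩ := hF
  exact ⟨i, u, hi, hu, hr⟩

theorem HitB_zero {m n a b : ℤ} {v : Vtx} {F : Finset Edg} (hF : HitB m n a b v 0 F) :
    VA m n a b v F := by
  obtain ⟨u, hu, hV, -⟩ := hF
  have e : u = v := by
    rw [abs_le, abs_le] at hu
    ext <;> omega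
  rw [← e]; exact hV

theorem WS_lower (K : ℕ) : ∃ c : ℝ, 0 < c ∧ ∀ (m n x y : ℤ), 1 ≤ m → 1 ≤ n → m ≤ K * n →
    n ≤ K * m → (0 ≤ x ∧ x ≤ m) → (0 ≤ y ∧ y ≤ n) →
    c * (Ft m n x y * Wt m n x y) ^ ((1 : ℝ) / 3) ≤
      P2 (RE 0 m 0 n) (WS m n (-n) m (x, y)) := by
  obtain ⟨δ, hδ, hring⟩ := ring_prob
  obtain ⟨c, hc, hlow⟩ := hit_low K
  refine ⟨min c (δ * c), lt_min hc (by positivity), ?_⟩
  intro m n x y hm hn h1 h2 hx hy
  have hpx := px_pos (m := m) (v := (x, y)) hx.1 hx.2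
  have hpy := py_pos (n := n) (v := (x, y)) hy.1 hy.2
  obtain ⟨ρ, hρ⟩ : ∃ ρ, ρ = min (px m (x, y)) (py n (x, y)) := ⟨_, rfl⟩
  obtain ⟨h, hh⟩ : ∃ h, h = (ρ - 1) / 2 := ⟨_, rfl⟩
  have e1 := hlow m n h (x, y) hm hn h1 h2 hx hy (by omega) (by omega) (by omega)
  simp only at e1
  have hP : 0 ≤ (Ft m n x y * Wt m n x y) ^ ((1 : ℝ) / 3) := by
    have : 0 ≤ P2 (RE 0 m 0 n) (HitB m n (-n) m (x, y) h) := Pr_nonneg okhalf2 _ _
    by_contra hneg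
    rw [not_le] at hneg
    have p1 : (0 : ℝ) ≤ ((x + 1 : ℤ) : ℝ) := by exact_mod_cast (by omega : 0 ≤ x + 1)
    have p2 : (0 : ℝ) ≤ ((y + 1 : ℤ) : ℝ) := by exact_mod_cast (by omega : 0 ≤ y + 1)
    have p3 : (0 : ℝ) ≤ ((m + 1 - x + (y + 1) : ℤ) : ℝ) := by
      exact_mod_cast (by omega : 0 ≤ m + 1 - x + (y + 1))
    have p4 : (0 : ℝ) ≤ ((n + 1 - y + (x + 1) : ℤ) : ℝ) := by
      exact_mod_cast (by omega : 0 ≤ n + 1 - y + (x + 1))
    have p5 : (0 : ℝ) ≤ ((m + 1 - x : ℤ) : ℝ) := by exact_mod_cast (by omega : 0 ≤ m + 1 - x)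
    have p6 : (0 : ℝ) ≤ ((n + 1 - y : ℤ) : ℝ) := by exact_mod_cast (by omega : 0 ≤ n + 1 - y)
    have : 0 ≤ (Ft m n x y * Wt m n x y) ^ ((1 : ℝ) / 3) := by
      unfold Ft Wt
      positivity
    linarith
  have hp1 : px m (x, y) = min x (m - x) + 1 := rfl
  have hp2 : py n (x, y) = min y (n - y) + 1 := rfl
  rcases (show h ≤ 0 ∨ 1 ≤ h by omega) with h0 | h0
  · have h0' : h = 0 := by omega
    rw [h0'] at e1
    refine ((mul_le_mul_of_nonneg_right (min_le_left _ _) hP).trans e1).trans ?_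
    exact Sc.P2_mono' fun F hF => VA_WS (HitB_zero hF)
  · have e2 := hring m n (-n) m x y h h0 (by omega) (by omega) (by omega) (by omega)
    have e3 : P2 (RE 0 m 0 n) (HitB m n (-n) m (x, y) h) ≤
        P2 (RE 0 m 0 n) (BX m n (-n) m (x, y) h) := Sc.P2_mono' fun F hF => HitB_BX hF
    have e4 : P2 (RE 0 m 0 n) (fun F => BX m n (-n) m (x, y) h F ∧ U2.Cr x y h F) ≤
        P2 (RE 0 m 0 n) (WS m n (-n) m (x, y)) := Sc.P2_mono' fun F hF =>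
      WS_of_ring h0 (by omega) (by omega) (by omega) (by omega) hF.1 hF.2
    refine (mul_le_mul_of_nonneg_right (min_le_right _ _) hP).trans ?_
    refine le_trans ?_ (e2.trans e4)
    rw [mul_assoc]
    exact mul_le_mul_of_nonneg_left (e1.trans e3) hδ.le

theorem FW_nonneg {m n x y : ℤ} (hx : 0 ≤ x ∧ x ≤ m) (hy : 0 ≤ y ∧ y ≤ n) :
    0 ≤ Ft m n x y ∧ 0 ≤ Wt m n x y := by
  have p1 : (0 : ℝ) ≤ ((x + 1 : ℤ) : ℝ) := by exact_mod_cast (by omega : 0 ≤ x + 1)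
  have p2 : (0 : ℝ) ≤ ((y + 1 : ℤ) : ℝ) := by exact_mod_cast (by omega : 0 ≤ y + 1)
  have p3 : (0 : ℝ) ≤ ((m + 1 - x + (y + 1) : ℤ) : ℝ) := by
    exact_mod_cast (by omega : 0 ≤ m + 1 - x + (y + 1))
  have p4 : (0 : ℝ) ≤ ((n + 1 - y + (x + 1) : ℤ) : ℝ) := by
    exact_mod_cast (by omega : 0 ≤ n + 1 - y + (x + 1))
  have p5 : (0 : ℝ) ≤ ((m + 1 - x : ℤ) : ℝ) := by exact_mod_cast (by omega : 0 ≤ m + 1 - x)
  have p6 : (0 : ℝ) ≤ ((n + 1 - y : ℤ) : ℝ) := by exact_mod_cast (by omega : 0 ≤ n + 1 - y)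
  constructor
  · unfold Ft; positivity
  · unfold Wt; positivity

/-- the dual point has the same cross-ratio -/
theorem FW_dv (m n x y : ℤ) : Ft m n (m - x) (n - y) * Wt m n (m - x) (n - y) =
    Ft m n x y * Wt m n x y := by
  rw [FW_eq, FW_eq]
  congr 1
  · push_cast; ring
  · push_cast; ring

/-- the dual of a face next to a vertex -/
theorem FW_near {m n x y : ℤ} (hx : 1 ≤ x ∧ x ≤ m) (hy : 1 ≤ y ∧ y ≤ n) :
    Ft m n x y * Wt m n x y ≤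
      4 * (Ft m n (m - x + 1) (n - y + 1) * Wt m n (m - x + 1) (n - y + 1)) := by
  rw [FW_eq, FW_eq]
  have e1 : (((n + 1 - (n - y + 1) + (m - x + 1 + 1)) ^ 2 : ℤ) : ℝ) *
      (((m + 1 - (m - x + 1) + (n - y + 1 + 1)) ^ 2 : ℤ) : ℝ) =
      (((n + 1 - y + (x + 1)) ^ 2 : ℤ) : ℝ) * (((m + 1 - x + (y + 1)) ^ 2 : ℤ) : ℝ) := by
    push_cast; ring
  rw [e1, ← mul_div_assoc]
  apply div_le_div_of_nonneg_right _ (by positivity)
  have e2 : (x + 1) * (m + 1 - x) ≤ 2 * ((m - x + 1 + 1) * (m + 1 - (m - x + 1))) := by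
    nlinarith [mul_nonneg (by omega : 0 ≤ x - 1) (by omega : 0 ≤ m - x)]
  have e3 : (y + 1) * (n + 1 - y) ≤ 2 * ((n - y + 1 + 1) * (n + 1 - (n - y + 1))) := by
    nlinarith [mul_nonneg (by omega : 0 ≤ y - 1) (by omega : 0 ≤ n - y)]
  have e4 : 0 ≤ (y + 1) * (n + 1 - y) := mul_nonneg (by omega) (by omega)
  have e5 : 0 ≤ (x + 1) * (m + 1 - x) := mul_nonneg (by omega) (by omega)
  have e6 := mul_le_mul e2 e3 e4 (e5.trans e2)
  have e7 : (((x + 1) * (m + 1 - x) : ℤ) : ℝ) * (((y + 1) * (n + 1 - y) : ℤ) : ℝ) ≤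
      (2 * ((((m - x + 1 + 1) * (m + 1 - (m - x + 1)) : ℤ) : ℝ))) *
        (2 * ((((n - y + 1 + 1) * (n + 1 - (n - y + 1)) : ℤ) : ℝ))) := by
    exact_mod_cast e6
  linarith

theorem third_quarter {T T' : ℝ} (hT : 0 ≤ T) (hT' : 0 ≤ T') (h : T ≤ 4 * T') :
    T ^ ((1 : ℝ) / 3) ≤ 2 * T' ^ ((1 : ℝ) / 3) := by
  have h1 : T ^ ((1 : ℝ) / 3) ≤ ((2 : ℝ) ^ 3 * T') ^ ((1 : ℝ) / 3) :=
    Real.rpow_le_rpow hT (by nlinarith) (by norm_num)
  have h2 : ((2 : ℝ) ^ 3 * T') ^ ((1 : ℝ) / 3) = 2 * T' ^ ((1 : ℝ) / 3) := by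
    rw [Real.mul_rpow (by positivity) hT']
    congr 1
    rw [← Real.rpow_natCast (2 : ℝ) 3, ← Real.rpow_mul (by norm_num)]
    norm_num
  rw [← h2]; exact h1

theorem FS_lower (K : ℕ) : ∃ c : ℝ, 0 < c ∧ ∀ (m n x y : ℤ), 1 ≤ m → 1 ≤ n → m ≤ K * n →
    n ≤ K * m → (1 ≤ x ∧ x ≤ m) → (1 ≤ y ∧ y ≤ n) →
    c * (Ft m n x y * Wt m n x y) ^ ((1 : ℝ) / 3) ≤
      P2 (RE 0 m 0 n) (fun F => ¬ WS m n (-n) m (x, y) F) := by
  obtain ⟨δ, hδ, hring⟩ := ring_prob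
  obtain ⟨c, hc, hlow⟩ := hit_low K
  refine ⟨min (c / 32) (δ * c), lt_min (by positivity) (by positivity), ?_⟩
  intro m n x y hm hn h1 h2 hx hy
  have hx' : 0 ≤ x ∧ x ≤ m := by omega
  have hy' : 0 ≤ y ∧ y ≤ n := by omega
  obtain ⟨hF0, hW0⟩ := FW_nonneg hx' hy'
  have hP : 0 ≤ (Ft m n x y * Wt m n x y) ^ ((1 : ℝ) / 3) := by positivity
  have hp1 : px m (m - x, n - y) = min (m - x) (m - (m - x)) + 1 := rfl
  have hp2 : py n (m - x, n - y) = min (n - y) (n - (n - y)) + 1 := rfl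
  obtain ⟨ρ, hρ⟩ : ∃ ρ, ρ = min (px m (m - x, n - y)) (py n (m - x, n - y)) := ⟨_, rfl⟩
  obtain ⟨h, hh⟩ : ∃ h, h = (ρ - 1) / 2 := ⟨_, rfl⟩
  rcases (show h ≤ 0 ∨ 1 ≤ h by omega) with h0 | h0
  · -- near the boundary
    have hq1 : px m (m - x + 1, n - y + 1) = min (m - x + 1) (m - (m - x + 1)) + 1 := rfl
    have hq2 : py n (m - x + 1, n - y + 1) = min (n - y + 1) (n - (n - y + 1)) + 1 := rfl
    have e1 := hlow m n 0 (m - x + 1, n - y + 1) hm hn h1 h2 (by simp only; omega)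
      (by simp only; omega) le_rfl (by omega) (by omega)
    simp only at e1
    have hx2 : 0 ≤ m - x + 1 ∧ m - x + 1 ≤ m := by omega
    have hy2 : 0 ≤ n - y + 1 ∧ n - y + 1 ≤ n := by omega
    obtain ⟨hF1, hW1⟩ := FW_nonneg hx2 hy2
    have e2 := third_quarter (mul_nonneg hF0 hW0) (mul_nonneg hF1 hW1) (FW_near hx hy)
    have e3 : P2 (RE 0 m 0 n) (HitB m n (-n) m (m - x + 1, n - y + 1) 0) ≤
        P2 (RE 0 m 0 n) (FB m n (-n) m (x - 1, y - 1)) := by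
      rw [← P2_hat]
      refine Sc.P2_mono' fun F hF => ?_
      refine VA_FB (f := (x - 1, y - 1)) hm hn ⟨by simp only; omega, by simp only; omega⟩ ?_
      have e : dv m n (x - 1, y - 1) = (m - x + 1, n - y + 1) := by
        unfold dv; ext
        · show m - (x - 1) = m - x + 1; ring
        · show n - (y - 1) = n - y + 1; ring
      rw [e]
      exact HitB_zero hF
    have e4 : P2 (RE 0 m 0 n) (FB m n (-n) m (x - 1, y - 1)) ≤
        2 ^ 4 * P2 (RE 0 m 0 n) (fun F => ¬ WS m n (-n) m (x, y) F) := by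
      refine N3.modify (B := {((x, y, true) : Edg), ((x - 1, y, true) : Edg),
        ((x, y, false) : Edg), ((x, y - 1, false) : Edg)}) (O := ∅) (k := 4)
        Finset.card_le_four (empty_subset _) (empty_subset _) ?_
      intro F hF hB
      rw [union_empty]
      refine FS_small hm hn hx hy ?_ ?_ ?_ ?_ ?_
      · obtain ⟨j, hj, hr⟩ := hB
        refine ⟨j, hj, hr.mono ?_⟩
        rintro e ⟨h3, h4⟩
        refine ⟨fun h5 => h3 ?_, h4⟩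
        rw [mem_coe, mem_sdiff] at h5
        exact h5.1
      all_goals
        intro h3
        rw [mem_sdiff] at h3
        exact h3.2 (by simp)
    refine (mul_le_mul_of_nonneg_right (min_le_left _ _) hP).trans ?_
    have e5 := e1.trans (e3.trans e4)
    have e6 := mul_le_mul_of_nonneg_left e2 hc.le
    linarith
  · -- far from the boundary
    have e1 := hlow m n h (m - x, n - y) hm hn h1 h2 (by simp only; omega) (by simp only; omega)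
      (by omega) (by omega) (by omega)
    simp only at e1
    rw [FW_dv] at e1
    have e2 := hring m n (-n) m (m - x) (n - y) h h0 (by omega) (by omega) (by omega) (by omega)
    have e3 : P2 (RE 0 m 0 n) (HitB m n (-n) m (m - x, n - y) h) ≤
        P2 (RE 0 m 0 n) (BX m n (-n) m (m - x, n - y) h) := Sc.P2_mono' fun F hF => HitB_BX hF
    have e4 : P2 (RE 0 m 0 n) (fun F => BX m n (-n) m (m - x, n - y) h F ∧
        U2.Cr (m - x) (n - y) h F) ≤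
        P2 (RE 0 m 0 n) (fun F => ¬ WS m n (-n) m (x, y) F) := by
      rw [← P2_hat]
      refine Sc.P2_mono' fun F hF => ?_
      exact FS_of_ring (v := (x, y)) (h := h) h0 (show 2 * h ≤ m - x by omega)
        (show m - x + 2 * h ≤ m by omega) (show 2 * h ≤ n - y by omega)
        (show n - y + 2 * h ≤ n by omega) hF.1 hF.2
    refine (mul_le_mul_of_nonneg_right (min_le_right _ _) hP).trans ?_
    refine le_trans ?_ (e2.trans e4)
    rw [mul_assoc]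
    exact mul_le_mul_of_nonneg_left (e1.trans e3) hδ.le

end H49LP
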