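import Pool.Agent.Helper49K9.LP.Upp
import Pool.Agent.Helper49K9.LP.Low

/-!
The two-sided bounds.
-/

set_option autoImplicit false

namespace H49LP

open H974 hiding bd
open H731C H731R H731A H731G Finset

/-- the size of the free side -/
noncomputable def Ff (m n x y : ℤ) : ℝ :=
  ((x : ℝ) * y) / (((m : ℝ) + 1 - x + y) * ((n : ℝ) + 1 - y + x))

/-- the size of the wired side -/
noncomputable def Wf (m n x y : ℤ) : ℝ :=
  (((m : ℝ) + 1 - x) * ((n : ℝ) + 1 - y)) / (((m : ℝ) + 1 - x + y) * ((n : ℝ) + 1 - y + x))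

/-- positions as real numbers -/
theorem real_pos {m n x y : ℤ} (hx : 0 ≤ x ∧ x ≤ m) (hy : 0 ≤ y ∧ y ≤ n) :
    ((0 : ℝ) ≤ x ∧ (x : ℝ) ≤ m) ∧ ((0 : ℝ) ≤ y ∧ (y : ℝ) ≤ n) := by
  refine ⟨⟨?_, ?_⟩, ⟨?_, ?_⟩⟩
  · exact_mod_cast hx.1
  · exact_mod_cast hx.2
  · exact_mod_cast hy.1
  · exact_mod_cast hy.2

theorem F_cmp {m n x y : ℤ} (hx : 0 ≤ x ∧ x ≤ m) (hy : 0 ≤ y ∧ y ≤ n) :
    (0 ≤ Ff m n x y ∧ Ff m n x y ≤ 4 * Ft m n x y) ∧ Ft m n x y ≤ 1 ∧ 0 ≤ Ft m n x y := by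
  obtain ⟨⟨a1, a2⟩, ⟨b1, b2⟩⟩ := real_pos hx hy
  unfold Ff Ft
  push_cast
  set X : ℝ := (x : ℝ)
  set Y : ℝ := (y : ℝ)
  have p1 : 0 < (m : ℝ) + 1 - X + Y := by linarith
  have p2 : 0 < (n : ℝ) + 1 - Y + X := by linarith
  have p3 : 0 < (m : ℝ) + 1 - X + (Y + 1) := by linarith
  have p4 : 0 < (n : ℝ) + 1 - Y + (X + 1) := by linarith
  refine ⟨⟨by positivity, ?_⟩, ?_, by positivity⟩
  · rw [← mul_div_assoc, div_le_div_iff₀ (by positivity) (by positivity)]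
    have e1 : ((m : ℝ) + 1 - X + (Y + 1)) * ((n : ℝ) + 1 - Y + (X + 1)) ≤
        (2 * ((m : ℝ) + 1 - X + Y)) * (2 * ((n : ℝ) + 1 - Y + X)) :=
      mul_le_mul (by linarith) (by linarith) p4.le (by linarith)
    have e2 : X * Y ≤ (X + 1) * (Y + 1) := mul_le_mul (by linarith) (by linarith) b1 (by linarith)
    calc X * Y * (((m : ℝ) + 1 - X + (Y + 1)) * ((n : ℝ) + 1 - Y + (X + 1))) ≤
          ((X + 1) * (Y + 1)) * ((2 * ((m : ℝ) + 1 - X + Y)) * (2 * ((n : ℝ) + 1 - Y + X))) :=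
          mul_le_mul e2 e1 (by positivity) (by positivity)
      _ = _ := by ring
  · rw [div_le_one (by positivity)]
    calc (X + 1) * (Y + 1) = (Y + 1) * (X + 1) := by ring
      _ ≤ _ := mul_le_mul (by linarith) (by linarith) (by linarith) p3.le

theorem F_cmp' {m n x y : ℤ} (hx : 1 ≤ x ∧ x ≤ m) (hy : 1 ≤ y ∧ y ≤ n) :
    Ft m n x y ≤ 4 * Ff m n x y := by
  obtain ⟨⟨a1, a2⟩, ⟨b1, b2⟩⟩ := real_pos (x := x) (y := y) (m := m) (n := n) (by omega) (by omega)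
  have a3 : (1 : ℝ) ≤ x := by exact_mod_cast hx.1
  have b3 : (1 : ℝ) ≤ y := by exact_mod_cast hy.1
  unfold Ff Ft
  push_cast
  set X : ℝ := (x : ℝ)
  set Y : ℝ := (y : ℝ)
  have p1 : 0 < (m : ℝ) + 1 - X + Y := by linarith
  have p2 : 0 < (n : ℝ) + 1 - Y + X := by linarith
  have p3 : 0 < (m : ℝ) + 1 - X + (Y + 1) := by linarith
  have p4 : 0 < (n : ℝ) + 1 - Y + (X + 1) := by linarith
  rw [← mul_div_assoc]
  apply div_le_div₀ (by positivity) _ (by positivity)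
    (mul_le_mul (by linarith) (by linarith) p2.le p3.le)
  calc (X + 1) * (Y + 1) ≤ (2 * X) * (2 * Y) :=
        mul_le_mul (by linarith) (by linarith) (by linarith) (by linarith)
    _ = _ := by ring

theorem W_cmp {m n x y : ℤ} (hx : 0 ≤ x ∧ x ≤ m) (hy : 0 ≤ y ∧ y ≤ n) :
    (Wt m n x y ≤ Wf m n x y ∧ Wf m n x y ≤ 4 * Wt m n x y) ∧ Wt m n x y ≤ 1 ∧
      0 ≤ Wt m n x y := by
  obtain ⟨⟨a1, a2⟩, ⟨b1, b2⟩⟩ := real_pos hx hy
  unfold Wf Wt
  push_cast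
  set X : ℝ := (x : ℝ)
  set Y : ℝ := (y : ℝ)
  have p1 : 0 < (m : ℝ) + 1 - X + Y := by linarith
  have p2 : 0 < (n : ℝ) + 1 - Y + X := by linarith
  have p3 : 0 < (m : ℝ) + 1 - X + (Y + 1) := by linarith
  have p4 : 0 < (n : ℝ) + 1 - Y + (X + 1) := by linarith
  have p5 : 0 < (m : ℝ) + 1 - X := by linarith
  have p6 : 0 < (n : ℝ) + 1 - Y := by linarith
  refine ⟨⟨?_, ?_⟩, ?_, by positivity⟩
  · exact div_le_div_of_nonneg_left (by positivity) (by positivity)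
      (mul_le_mul (by linarith) (by linarith) p2.le p3.le)
  · rw [← mul_div_assoc, div_le_div_iff₀ (by positivity) (by positivity)]
    have e1 : ((m : ℝ) + 1 - X + (Y + 1)) * ((n : ℝ) + 1 - Y + (X + 1)) ≤
        (2 * ((m : ℝ) + 1 - X + Y)) * (2 * ((n : ℝ) + 1 - Y + X)) :=
      mul_le_mul (by linarith) (by linarith) p4.le (by linarith)
    calc _ ≤ (((m : ℝ) + 1 - X) * ((n : ℝ) + 1 - Y)) *
          ((2 * ((m : ℝ) + 1 - X + Y)) * (2 * ((n : ℝ) + 1 - Y + X))) :=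
          mul_le_mul_of_nonneg_left e1 (by positivity)
      _ = _ := by ring
  · rw [div_le_one (by positivity)]
    exact mul_le_mul (by linarith) (by linarith) p6.le p3.le

/-- the constant -/
noncomputable def w0 (K : ℕ) : ℝ := 1 / (2 * (2 * (K : ℝ) + 1))

theorem w0_pos (K : ℕ) : 0 < w0 K := by unfold w0; positivity

theorem gen_low {a b c d k : ℝ} (ha : 0 < a) (hd : 0 < d) (hk : 0 ≤ k) (hc : c ≤ 2 * d)
    (hb : b ≤ (2 * k + 1) * a) (hb0 : 0 < b) (hc0 : 0 < c) :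
    1 / (2 * (2 * k + 1)) ≤ (a * d) / (b * c) := by
  rw [div_le_div_iff₀ (by positivity) (by positivity), one_mul]
  calc b * c ≤ ((2 * k + 1) * a) * (2 * d) := mul_le_mul hb hc hc0.le (by positivity)
    _ = a * d * (2 * (2 * k + 1)) := by ring

/-- nearest side wired -/
theorem W_low (K : ℕ) {m n x y : ℤ} (hm : 1 ≤ m) (hn : 1 ≤ n) (h1 : m ≤ K * n) (h2 : n ≤ K * m)
    (hx : 0 ≤ x ∧ x ≤ m) (hy : 0 ≤ y ∧ y ≤ n)
    (hmin : min (x + 1) (y + 1) ≤ min (m + 1 - x) (n + 1 - y)) : w0 K ≤ Wt m n x y := by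
  have hK : (0 : ℤ) ≤ K := Int.natCast_nonneg K
  have hKR : (0 : ℝ) ≤ K := Nat.cast_nonneg K
  have hK1 : (1 : ℤ) ≤ K := by nlinarith
  have p3 : (0 : ℝ) < ((m + 1 - x + (y + 1) : ℤ) : ℝ) := by
    exact_mod_cast (by omega : 0 < m + 1 - x + (y + 1))
  have p4 : (0 : ℝ) < ((n + 1 - y + (x + 1) : ℤ) : ℝ) := by
    exact_mod_cast (by omega : 0 < n + 1 - y + (x + 1))
  have p5 : (0 : ℝ) < ((m + 1 - x : ℤ) : ℝ) := by exact_mod_cast (by omega : 0 < m + 1 - x)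
  have p6 : (0 : ℝ) < ((n + 1 - y : ℤ) : ℝ) := by exact_mod_cast (by omega : 0 < n + 1 - y)
  unfold Wt w0
  rcases le_total x y with h | h
  · refine gen_low p5 p6 hKR ?_ ?_ p3 p4
    · exact_mod_cast (by omega : n + 1 - y + (x + 1) ≤ 2 * (n + 1 - y))
    · have : m + 1 - x + (y + 1) ≤ (2 * (K : ℤ) + 1) * (m + 1 - x) := by
        have e1 : (K : ℤ) * m ≤ K * (2 * (m + 1 - x) - 2) :=
          mul_le_mul_of_nonneg_left (by omega) hK
        nlinarith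
      exact_mod_cast this
  · have e := gen_low (a := ((n + 1 - y : ℤ) : ℝ)) (b := ((n + 1 - y + (x + 1) : ℤ) : ℝ))
      (c := ((m + 1 - x + (y + 1) : ℤ) : ℝ)) (d := ((m + 1 - x : ℤ) : ℝ)) p6 p5 hKR
      (by exact_mod_cast (by omega : m + 1 - x + (y + 1) ≤ 2 * (m + 1 - x))) (by
        have : n + 1 - y + (x + 1) ≤ (2 * (K : ℤ) + 1) * (n + 1 - y) := by
          have e1 : (K : ℤ) * n ≤ K * (2 * (n + 1 - y) - 2) :=
            mul_le_mul_of_nonneg_left (by omega) hK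
          nlinarith
        exact_mod_cast this) p4 p3
    refine e.trans (le_of_eq ?_)
    ring

/-- nearest side free -/
theorem F_low (K : ℕ) {m n x y : ℤ} (hm : 1 ≤ m) (hn : 1 ≤ n) (h1 : m ≤ K * n) (h2 : n ≤ K * m)
    (hx : 0 ≤ x ∧ x ≤ m) (hy : 0 ≤ y ∧ y ≤ n)
    (hmin : min (m + 1 - x) (n + 1 - y) ≤ min (x + 1) (y + 1)) : w0 K ≤ Ft m n x y := by
  have hK : (0 : ℤ) ≤ K := Int.natCast_nonneg K
  have hKR : (0 : ℝ) ≤ K := Nat.cast_nonneg K
  have hK1 : (1 : ℤ) ≤ K := by nlinarith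
  have p3 : (0 : ℝ) < ((m + 1 - x + (y + 1) : ℤ) : ℝ) := by
    exact_mod_cast (by omega : 0 < m + 1 - x + (y + 1))
  have p4 : (0 : ℝ) < ((n + 1 - y + (x + 1) : ℤ) : ℝ) := by
    exact_mod_cast (by omega : 0 < n + 1 - y + (x + 1))
  have p5 : (0 : ℝ) < ((x + 1 : ℤ) : ℝ) := by exact_mod_cast (by omega : 0 < x + 1)
  have p6 : (0 : ℝ) < ((y + 1 : ℤ) : ℝ) := by exact_mod_cast (by omega : 0 < y + 1)
  unfold Ft w0
  rcases le_total (m + 1 - x) (n + 1 - y) with h | h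
  · have e := gen_low (a := ((x + 1 : ℤ) : ℝ)) (b := ((n + 1 - y + (x + 1) : ℤ) : ℝ))
      (c := ((m + 1 - x + (y + 1) : ℤ) : ℝ)) (d := ((y + 1 : ℤ) : ℝ)) p5 p6 hKR
      (by exact_mod_cast (by omega : m + 1 - x + (y + 1) ≤ 2 * (y + 1))) (by
        have : n + 1 - y + (x + 1) ≤ (2 * (K : ℤ) + 1) * (x + 1) := by
          have e1 : (K : ℤ) * m ≤ K * (2 * (x + 1) - 2) :=
            mul_le_mul_of_nonneg_left (by omega) hK
          nlinarith
        exact_mod_cast this) p4 p3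
    refine e.trans (le_of_eq ?_)
    ring
  · have e := gen_low (a := ((y + 1 : ℤ) : ℝ)) (b := ((m + 1 - x + (y + 1) : ℤ) : ℝ))
      (c := ((n + 1 - y + (x + 1) : ℤ) : ℝ)) (d := ((x + 1 : ℤ) : ℝ)) p6 p5 hKR
      (by exact_mod_cast (by omega : n + 1 - y + (x + 1) ≤ 2 * (x + 1))) (by
        have : m + 1 - x + (y + 1) ≤ (2 * (K : ℤ) + 1) * (y + 1) := by
          have e1 : (K : ℤ) * n ≤ K * (2 * (y + 1) - 2) :=
            mul_le_mul_of_nonneg_left (by omega) hK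
          nlinarith
        exact_mod_cast this) p3 p4
    refine e.trans (le_of_eq ?_)
    ring

/-- the probability of the other side is not small -/
theorem big_side {p q f w A c w1 : ℝ} (hpq : p + q = 1) (hA : 0 < A) (hc : 0 < c)
    (hw1 : 0 < w1) (hw : w1 ≤ w) (hf : 0 ≤ f) (hp : p ≤ A * f) (hq : c * (f * w) ≤ q) :
    min (1 / 2) (c * w1 / (2 * A)) ≤ q := by
  rcases le_or_gt (A * f) (1 / 2) with h | h
  · exact (min_le_left _ _).trans (by linarith)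
  · refine (min_le_right _ _).trans ?_
    have h1 : 1 / (2 * A) ≤ f := by
      rw [div_le_iff₀ (by positivity)]
      linarith
    have h2 : 1 / (2 * A) * w1 ≤ f * w := mul_le_mul h1 hw hw1.le hf
    calc c * w1 / (2 * A) = c * (1 / (2 * A) * w1) := by ring
      _ ≤ c * (f * w) := mul_le_mul_of_nonneg_left h2 hc.le
      _ ≤ q := hq

theorem WS_trivial {m n x y : ℤ} (hm : 1 ≤ m) (hn : 1 ≤ n) (hx : 0 ≤ x ∧ x ≤ m)
    (hy : 0 ≤ y ∧ y ≤ n) (h : x = 0 ∨ y = 0) (F : Finset Edg) : WS m n (-n) m (x, y) F := by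
  apply VA_WS
  apply VA_wired hm hn
  simp only
  omega

theorem final (K : ℕ) : ∃ c₁ c₂ : ℝ, 0 < c₁ ∧ 0 < c₂ ∧ ∀ (m n x y : ℤ), 1 ≤ m → 1 ≤ n →
    m ≤ K * n → n ≤ K * m → (0 ≤ x ∧ x ≤ m) → (0 ≤ y ∧ y ≤ n) →
    (c₁ * Ff m n x y ^ ((1 : ℝ) / 3) ≤ P2 (RE 0 m 0 n) (fun F => ¬ WS m n (-n) m (x, y) F) ∧
      P2 (RE 0 m 0 n) (fun F => ¬ WS m n (-n) m (x, y) F) ≤
        c₂ * Ff m n x y ^ ((1 : ℝ) / 3)) ∧
    (c₁ * Wf m n x y ^ ((1 : ℝ) / 3) ≤ P2 (RE 0 m 0 n) (WS m n (-n) m (x, y)) ∧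
      P2 (RE 0 m 0 n) (WS m n (-n) m (x, y)) ≤ c₂ * Wf m n x y ^ ((1 : ℝ) / 3)) := by
  obtain ⟨A1, hA1, hWu⟩ := WS_upper K
  obtain ⟨A2, hA2, hFu⟩ := FS_upper K
  obtain ⟨c1, hc1, hWl⟩ := WS_lower K
  obtain ⟨c2, hc2, hFl⟩ := FS_lower K
  set A := max A1 A2 with hA
  set c := min c1 c2 with hc
  have hA0 : 0 < A := lt_max_of_lt_left hA1
  have hc0 : 0 < c := lt_min hc1 hc2
  set w1 : ℝ := w0 K ^ ((1 : ℝ) / 3) with hw1
  have hw1p : 0 < w1 := Real.rpow_pos_of_pos (w0_pos K) _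
  set c3 := min (1 / 2) (c * w1 / (2 * A)) with hc3
  have hc3p : 0 < c3 := lt_min (by norm_num) (by positivity)
  refine ⟨min (c * w1 / 2) (c3 / 2), max (2 * A) (2 / w1), lt_min (by positivity) (by positivity),
    lt_max_of_lt_left (by positivity), ?_⟩
  intro m n x y hm hn h1 h2 hx hy
  obtain ⟨⟨f1, f2⟩, f3, f4⟩ := F_cmp (m := m) (n := n) hx hy
  obtain ⟨⟨g1, g2⟩, g3, g4⟩ := W_cmp (m := m) (n := n) hx hy
  have g5 : 0 ≤ Wf m n x y := g4.trans g1
  set PF := P2 (RE 0 m 0 n) (fun F => ¬ WS m n (-n) m (x, y) F) with hPF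
  set PW := P2 (RE 0 m 0 n) (WS m n (-n) m (x, y)) with hPW
  have hsum : PF + PW = 1 := by
    have : PF = 1 - PW := by
      rw [hPF, hPW]; unfold P2; rw [Pr_not]
    linarith
  have hPF0 : 0 ≤ PF := Pr_nonneg okhalf2 _ _
  have hPW0 : 0 ≤ PW := Pr_nonneg okhalf2 _ _
  -- cube roots
  set ff := Ff m n x y ^ ((1 : ℝ) / 3) with hff
  set ft := Ft m n x y ^ ((1 : ℝ) / 3) with hft
  set wf := Wf m n x y ^ ((1 : ℝ) / 3) with hwf
  set wt := Wt m n x y ^ ((1 : ℝ) / 3) with hwt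
  have hff0 : 0 ≤ ff := Real.rpow_nonneg f1 _
  have hft0 : 0 ≤ ft := Real.rpow_nonneg f4 _
  have hwf0 : 0 ≤ wf := Real.rpow_nonneg g5 _
  have hwt0 : 0 ≤ wt := Real.rpow_nonneg g4 _
  have k1 : ff ≤ 2 * ft := third_quarter f1 f4 f2
  have k2 : wf ≤ 2 * wt := third_quarter g5 g4 g2
  have k3 : wt ≤ wf := Real.rpow_le_rpow g4 g1 (by norm_num)
  have k4 : ft ≤ 1 := by
    calc ft ≤ (1 : ℝ) ^ ((1 : ℝ) / 3) := Real.rpow_le_rpow f4 f3 (by norm_num)
      _ = 1 := Real.one_rpow _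
  have k5 : wt ≤ 1 := by
    calc wt ≤ (1 : ℝ) ^ ((1 : ℝ) / 3) := Real.rpow_le_rpow g4 g3 (by norm_num)
      _ = 1 := Real.one_rpow _
  have hprod : (Ft m n x y * Wt m n x y) ^ ((1 : ℝ) / 3) = ft * wt := Real.mul_rpow f4 g4
  have lW : c * (ft * wt) ≤ PW := by
    have e := hWl m n x y hm hn h1 h2 hx hy
    rw [hprod] at e
    exact (mul_le_mul_of_nonneg_right (min_le_left _ _) (by positivity)).trans e
  have q1 : min (c * w1 / 2) (c3 / 2) ≤ c * w1 / 2 := min_le_left _ _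
  have q2 : min (c * w1 / 2) (c3 / 2) ≤ c3 / 2 := min_le_right _ _
  have q3 : 2 * A ≤ max (2 * A) (2 / w1) := le_max_left _ _
  have q4 : 2 / w1 ≤ max (2 * A) (2 / w1) := le_max_right _ _
  rcases le_or_gt (min (x + 1) (y + 1)) (min (m + 1 - x) (n + 1 - y)) with hcase | hcase
  · -- nearest side wired
    have hw : w1 ≤ wt := Real.rpow_le_rpow (w0_pos K).le (W_low K hm hn h1 h2 hx hy hcase)
      (by norm_num)
    have uF : PF ≤ A * ft := (hFu m n x y hm hn h1 h2 hx hy hcase).trans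
      (mul_le_mul_of_nonneg_right (le_max_right _ _) hft0)
    have bW : c3 ≤ PW := big_side hsum hA0 hc0 hw1p hw hft0 uF lW
    refine ⟨?_, ?_, ?_⟩
    · by_cases h0 : x = 0 ∨ y = 0
      · have e1 : PF = 0 := by
          rw [hPF]
          exact Sc.P2_zero fun F hF => hF (WS_trivial hm hn hx hy h0 F)
        have e2 : ff = 0 := by
          rw [hff]
          unfold Ff
          have : (x : ℝ) * y = 0 := by
            rcases h0 with h0 | h0
            · rw [h0]; simp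
            · rw [h0]; simp
          rw [this, zero_div, Real.zero_rpow (by norm_num)]
        rw [e1, e2]
        simp
      · rw [not_or] at h0
        have hx' : 1 ≤ x ∧ x ≤ m := by omega
        have hy' : 1 ≤ y ∧ y ≤ n := by omega
        have k6 : ft ≤ 2 * ff := third_quarter f4 f1 (F_cmp' hx' hy')
        have lF : c * (ft * wt) ≤ PF := by
          have e := hFl m n x y hm hn h1 h2 hx' hy'
          rw [hprod] at e
          exact (mul_le_mul_of_nonneg_right (min_le_right _ _) (by positivity)).trans e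
        constructor
        · have e1 : c * w1 / 2 * ff ≤ c * (ft * wt) := by
            have e2 : (ff / 2) * w1 ≤ ft * wt := mul_le_mul (by linarith) hw hw1p.le hft0
            calc c * w1 / 2 * ff = c * ((ff / 2) * w1) := by ring
              _ ≤ _ := mul_le_mul_of_nonneg_left e2 hc0.le
          exact (mul_le_mul_of_nonneg_right q1 hff0).trans (e1.trans lF)
        · calc PF ≤ A * ft := uF
            _ ≤ A * (2 * ff) := mul_le_mul_of_nonneg_left k6 hA0.le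
            _ = 2 * A * ff := by ring
            _ ≤ _ := mul_le_mul_of_nonneg_right q3 hff0
    · calc min (c * w1 / 2) (c3 / 2) * wf ≤ c3 / 2 * wf := mul_le_mul_of_nonneg_right q2 hwf0
        _ ≤ c3 / 2 * 2 := mul_le_mul_of_nonneg_left (by linarith) (by positivity)
        _ = c3 := by ring
        _ ≤ PW := bW
    · calc PW ≤ 1 := by linarith
        _ ≤ 2 / w1 * w1 := by rw [div_mul_cancel₀ _ hw1p.ne']; norm_num
        _ ≤ 2 / w1 * wf := mul_le_mul_of_nonneg_left (hw.trans k3) (by positivity)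
        _ ≤ _ := mul_le_mul_of_nonneg_right q4 hwf0
  · -- nearest side free
    have hx' : 1 ≤ x ∧ x ≤ m := by omega
    have hy' : 1 ≤ y ∧ y ≤ n := by omega
    have k6 : ft ≤ 2 * ff := third_quarter f4 f1 (F_cmp' hx' hy')
    have hf : w1 ≤ ft := Real.rpow_le_rpow (w0_pos K).le (F_low K hm hn h1 h2 hx hy hcase.le)
      (by norm_num)
    have uW : PW ≤ A * wt := (hWu m n x y hm hn h1 h2 hx hy hcase).trans
      (mul_le_mul_of_nonneg_right (le_max_left _ _) hwt0)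
    have lF : c * (wt * ft) ≤ PF := by
      have e := hFl m n x y hm hn h1 h2 hx' hy'
      rw [hprod] at e
      rw [mul_comm wt ft]
      exact (mul_le_mul_of_nonneg_right (min_le_right _ _) (by positivity)).trans e
    have bF : c3 ≤ PF := big_side (by linarith : PW + PF = 1) hA0 hc0 hw1p hf hwt0 uW lF
    refine ⟨⟨?_, ?_⟩, ?_, ?_⟩
    · calc min (c * w1 / 2) (c3 / 2) * ff ≤ c3 / 2 * ff := mul_le_mul_of_nonneg_right q2 hff0
        _ ≤ c3 / 2 * 2 := mul_le_mul_of_nonneg_left (by linarith) (by positivity)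
        _ = c3 := by ring
        _ ≤ PF := bF
    · calc PF ≤ 1 := by linarith
        _ ≤ 2 / w1 * (w1 / 2) := by field_simp; norm_num
        _ ≤ 2 / w1 * ff := mul_le_mul_of_nonneg_left (by linarith) (by positivity)
        _ ≤ _ := mul_le_mul_of_nonneg_right q4 hff0
    · have e1 : c * w1 / 2 * wf ≤ c * (ft * wt) := by
        have e2 : w1 * (wf / 2) ≤ ft * wt := mul_le_mul hf (by linarith) (by positivity) hft0
        calc c * w1 / 2 * wf = c * (w1 * (wf / 2)) := by ring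
          _ ≤ _ := mul_le_mul_of_nonneg_left e2 hc0.le
      exact (mul_le_mul_of_nonneg_right q1 hwf0).trans (e1.trans lW)
    · calc PW ≤ A * wt := uW
        _ ≤ A * wf := mul_le_mul_of_nonneg_left k3 hA0.le
        _ ≤ 2 * A * wf := mul_le_mul_of_nonneg_right (by linarith) hwf0
        _ ≤ _ := mul_le_mul_of_nonneg_right q3 hwf0

end H49LP
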