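import Pool.Agent.Helper49K9.LP.Defs

/-!
Four open crossings around a box block the dual paths.
-/

set_option autoImplicit false

namespace H49LP

open H974 hiding bd
open H731C H731R H731A H731G Finset

/-- a dual path from below the line `c` to above the line `d`, in the columns `[a, b)`, meets the
open left-right crossings -/
theorem blockH {a b c d : ℤ} (hcd : c < d) {F : Set Edg} {y y' : ℤ} (hy' : c ≤ y' ∧ y' ≤ d)
    (h1 : Reach (F ∩ ↑(LRE a b c d)) (a, y) (b, y')) {f g : Vtx} (hf : f.2 < c) (hg : d ≤ g.2)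
    (hD : DReach {e | e ∈ Fᶜ ∧ ((a ≤ (dsrc e).1 ∧ (dsrc e).1 < b) ∧
      (a ≤ (dtgt e).1 ∧ (dtgt e).1 < b))} f g) : False := by
  obtain ⟨w, g1, hw, hg1, hwg, hr⟩ := U1.dlast (fun v : Vtx => v.2 < c) hD hf (by omega)
  obtain ⟨w2, g2, hw2, hg2, hwg2, hr2⟩ := U1.dlast (fun v : Vtx => d ≤ v.2) hr.symm hg (by
    obtain ⟨⟨x, y, _ | _⟩, -, h3⟩ := hwg
    · simp only [dsrc_false, dtgt_mk] at h3
      rcases h3 with ⟨h3, h4⟩ | ⟨h3, h4⟩ <;> subst h3 <;> subst h4 <;> simp only at hw hg1 ⊢ <;>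
        omega
    · simp only [dsrc_true, dtgt_mk] at h3
      rcases h3 with ⟨h3, h4⟩ | ⟨h3, h4⟩ <;> subst h3 <;> subst h4 <;> simp only at hw hg1 ⊢ <;>
        omega)
  have e1 : w = (w.1, c - 1) ∧ a ≤ w.1 ∧ w.1 < b ∧
      DReach (Fᶜ ∩ ↑(LRE a b c d)) (w.1, c - 1) g1 := by
    obtain ⟨⟨x, y, _ | _⟩, ⟨h2, h3⟩, h4⟩ := hwg
    · exfalso
      simp only [dsrc_false, dtgt_mk] at h4
      rcases h4 with ⟨h5, h6⟩ | ⟨h5, h6⟩ <;> subst h5 <;> subst h6 <;> simp only at hw hg1 <;>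
        omega
    · simp only [dsrc_true, dtgt_mk] at h3 h4
      rcases h4 with ⟨h5, h6⟩ | ⟨h5, h6⟩ <;> subst h5 <;> subst h6 <;> simp only at hw hg1
      · have : y = c := by omega
        subst this
        refine ⟨rfl, h3.1.1, h3.1.2, DAdj.reach ⟨(x, y, true), ⟨h2, ?_⟩, Or.inl ⟨rfl, rfl⟩⟩⟩
        rw [mem_coe, mem_LRE_true]
        omega
      · exfalso
        omega
  have e2 : w2 = (w2.1, d) ∧ DReach (Fᶜ ∩ ↑(LRE a b c d)) g2 (w2.1, d) := by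
    obtain ⟨⟨x, y, _ | _⟩, ⟨⟨h2, h3⟩, -⟩, h4⟩ := hwg2
    · exfalso
      simp only [dsrc_false, dtgt_mk] at h4
      rcases h4 with ⟨h5, h6⟩ | ⟨h5, h6⟩ <;> subst h5 <;> subst h6 <;> simp only at hw2 hg2 <;>
        omega
    · simp only [dsrc_true, dtgt_mk] at h3 h4
      rcases h4 with ⟨h5, h6⟩ | ⟨h5, h6⟩ <;> subst h5 <;> subst h6 <;> simp only at hw2 hg2
      · exfalso
        omega
      · have : y = d := by omega
        subst this
        refine ⟨rfl, DAdj.reach ⟨(x, y, true), ⟨h2, ?_⟩, Or.inl ⟨rfl, rfl⟩⟩⟩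
        rw [mem_coe, mem_LRE_true]
        omega
  have e3 : DReach (Fᶜ ∩ ↑(LRE a b c d)) g1 g2 := by
    refine hr2.symm.mono ?_
    rintro ⟨x, y, _ | _⟩ ⟨⟨⟨h2, h3⟩, h4⟩, h5⟩
    · refine ⟨h2, ?_⟩
      simp only [dsrc_false, dtgt_mk] at h3 h4 h5
      rw [mem_coe, mem_LRE_false]
      omega
    · refine ⟨h2, ?_⟩
      simp only [dsrc_true, dtgt_mk] at h3 h4 h5
      rw [mem_coe, mem_LRE_true]
      omega
  exact no_both hcd.le hy' ⟨e1.2.1, e1.2.2.1⟩ h1 ((e1.2.2.2.trans e3).trans e2.2)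

/-- a dual path from the left of the line `a` to the right of the line `b`, in the rows `[c, d)`,
meets the open top-bottom crossings -/
theorem blockV {a b c d : ℤ} (hab : a < b) {F : Set Edg} {x x' : ℤ} (hx' : a ≤ x' ∧ x' ≤ b)
    (h1 : Reach (F ∩ ↑(TBE a b c d)) (x, c) (x', d)) {f g : Vtx} (hf : f.1 < a) (hg : b ≤ g.1)
    (hD : DReach {e | e ∈ Fᶜ ∧ ((c ≤ (dsrc e).2 ∧ (dsrc e).2 < d) ∧
      (c ≤ (dtgt e).2 ∧ (dtgt e).2 < d))} f g) : False := by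
  obtain ⟨w, g1, hw, hg1, hwg, hr⟩ := U1.dlast (fun v : Vtx => v.1 < a) hD hf (by omega)
  obtain ⟨w2, g2, hw2, hg2, hwg2, hr2⟩ := U1.dlast (fun v : Vtx => b ≤ v.1) hr.symm hg (by
    obtain ⟨⟨x, y, _ | _⟩, -, h3⟩ := hwg
    · simp only [dsrc_false, dtgt_mk] at h3
      rcases h3 with ⟨h3, h4⟩ | ⟨h3, h4⟩ <;> subst h3 <;> subst h4 <;> simp only at hw hg1 ⊢ <;>
        omega
    · simp only [dsrc_true, dtgt_mk] at h3
      rcases h3 with ⟨h3, h4⟩ | ⟨h3, h4⟩ <;> subst h3 <;> subst h4 <;> simp only at hw hg1 ⊢ <;>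
        omega)
  have e1 : w = (a - 1, w.2) ∧ c ≤ w.2 ∧ w.2 < d ∧
      DReach (Fᶜ ∩ ↑(TBE a b c d)) (a - 1, w.2) g1 := by
    obtain ⟨⟨x, y, _ | _⟩, ⟨h2, h3⟩, h4⟩ := hwg
    · simp only [dsrc_false, dtgt_mk] at h3 h4
      rcases h4 with ⟨h5, h6⟩ | ⟨h5, h6⟩ <;> subst h5 <;> subst h6 <;> simp only at hw hg1
      · have : x = a := by omega
        subst this
        refine ⟨rfl, h3.1.1, h3.1.2, DAdj.reach ⟨(x, y, false), ⟨h2, ?_⟩, Or.inl ⟨rfl, rfl⟩⟩⟩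
        rw [mem_coe, mem_TBE_false]
        omega
      · exfalso
        omega
    · exfalso
      simp only [dsrc_true, dtgt_mk] at h4
      rcases h4 with ⟨h5, h6⟩ | ⟨h5, h6⟩ <;> subst h5 <;> subst h6 <;> simp only at hw hg1 <;>
        omega
  have e2 : w2 = (b, w2.2) ∧ DReach (Fᶜ ∩ ↑(TBE a b c d)) g2 (b, w2.2) := by
    obtain ⟨⟨x, y, _ | _⟩, ⟨⟨h2, h3⟩, -⟩, h4⟩ := hwg2
    · simp only [dsrc_false, dtgt_mk] at h3 h4
      rcases h4 with ⟨h5, h6⟩ | ⟨h5, h6⟩ <;> subst h5 <;> subst h6 <;> simp only at hw2 hg2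
      · exfalso
        omega
      · have : x = b := by omega
        subst this
        refine ⟨rfl, DAdj.reach ⟨(x, y, false), ⟨h2, ?_⟩, Or.inl ⟨rfl, rfl⟩⟩⟩
        rw [mem_coe, mem_TBE_false]
        omega
    · exfalso
      simp only [dsrc_true, dtgt_mk] at h4
      rcases h4 with ⟨h5, h6⟩ | ⟨h5, h6⟩ <;> subst h5 <;> subst h6 <;> simp only at hw2 hg2 <;>
        omega
  have e3 : DReach (Fᶜ ∩ ↑(TBE a b c d)) g1 g2 := by
    refine hr2.symm.mono ?_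
    rintro ⟨x, y, _ | _⟩ ⟨⟨⟨h2, h3⟩, h4⟩, h5⟩
    · refine ⟨h2, ?_⟩
      simp only [dsrc_false, dtgt_mk] at h3 h4 h5
      rw [mem_coe, mem_TBE_false]
      omega
    · refine ⟨h2, ?_⟩
      simp only [dsrc_true, dtgt_mk] at h3 h4 h5
      rw [mem_coe, mem_TBE_true]
      omega
  exact no_both_TB hab.le hx' ⟨e1.2.1, e1.2.2.1⟩ h1 ((e1.2.2.2.trans e3).trans e2.2)

/-- the faces of the outer box -/
def OB (x y h : ℤ) (f : Vtx) : Prop :=
  (x - 2 * h ≤ f.1 ∧ f.1 < x + 2 * h) ∧ (y - 2 * h ≤ f.2 ∧ f.2 < y + 2 * h)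

/-- a dual path from inside the inner box to outside the outer box meets the open ring -/
theorem ring_block {x y h : ℤ} (hh : 1 ≤ h) {F : Finset Edg} (hC : U2.Cr x y h F) {f g : Vtx}
    (hf : (x - h ≤ f.1 ∧ f.1 < x + h) ∧ (y - h ≤ f.2 ∧ f.2 < y + h)) (hg : ¬ OB x y h g)
    (hD : DReach (↑F : Set Edg)ᶜ f g) : False := by
  have hfO : OB x y h f := by unfold OB; omega
  obtain ⟨w, g', hw, hg', hwg, hr⟩ := U1.dlast (fun v : Vtx => ¬ OB x y h v) hD.symm hg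
    (by simpa using hfO)
  simp only [not_not] at hg' hr
  obtain ⟨⟨⟨t, t', ht, ht', hT⟩, ⟨b, b', hb, hb', hB⟩⟩, ⟨r, r', hr0, hr0', hR⟩,
    ⟨l, l', hl, hl', hL⟩⟩ := hC
  have hcol : DReach {e | e ∈ (↑F : Set Edg)ᶜ ∧ ((x - 2 * h ≤ (dsrc e).1 ∧
      (dsrc e).1 < x + 2 * h) ∧ (x - 2 * h ≤ (dtgt e).1 ∧ (dtgt e).1 < x + 2 * h))} f g' :=
    hr.symm.mono (by
      rintro e ⟨h1, h2, h3⟩
      exact ⟨h1, h2.1, h3.1⟩)
  have hrow : DReach {e | e ∈ (↑F : Set Edg)ᶜ ∧ ((y - 2 * h ≤ (dsrc e).2 ∧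
      (dsrc e).2 < y + 2 * h) ∧ (y - 2 * h ≤ (dtgt e).2 ∧ (dtgt e).2 < y + 2 * h))} f g' :=
    hr.symm.mono (by
      rintro e ⟨h1, h2, h3⟩
      exact ⟨h1, h2.2, h3.2⟩)
  obtain ⟨⟨p, q, _ | _⟩, h2, h3⟩ := hwg
  · simp only [dsrc_false, dtgt_mk] at h3
    have hst : DReach {e | e ∈ (↑F : Set Edg)ᶜ ∧ ((y - 2 * h ≤ (dsrc e).2 ∧
      (dsrc e).2 < y + 2 * h) ∧ (y - 2 * h ≤ (dtgt e).2 ∧ (dtgt e).2 < y + 2 * h))} g' w := by
      refine DAdj.reach ⟨(p, q, false), ⟨h2, ?_⟩, ?_⟩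
      · unfold OB at hg'
        simp only [dsrc_false, dtgt_mk]
        rcases h3 with ⟨h3, h4⟩ | ⟨h3, h4⟩ <;> subst h3 <;> subst h4 <;> simp only at hg' ⊢ <;>
          omega
      · simp only [dsrc_false, dtgt_mk]
        tauto
    have hall := hrow.trans hst
    have hw' : w.1 < x - 2 * h ∨ x + 2 * h ≤ w.1 := by
      unfold OB at hg' hw
      rcases h3 with ⟨h3, h4⟩ | ⟨h3, h4⟩ <;> subst h3 <;> subst h4 <;> simp only at hg' hw ⊢ <;>
        omega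
    rcases hw' with hw' | hw'
    · exact blockV (a := x - 2 * h) (b := x - h) (by omega) hl' hL (by omega) (by omega) hall.symm
    · exact blockV (a := x + h) (b := x + 2 * h) (by omega) hr0' hR (by omega) hw' hall
  · simp only [dsrc_true, dtgt_mk] at h3
    have hst : DReach {e | e ∈ (↑F : Set Edg)ᶜ ∧ ((x - 2 * h ≤ (dsrc e).1 ∧
      (dsrc e).1 < x + 2 * h) ∧ (x - 2 * h ≤ (dtgt e).1 ∧ (dtgt e).1 < x + 2 * h))} g' w := by
      refine DAdj.reach ⟨(p, q, true), ⟨h2, ?_⟩, ?_⟩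
      · unfold OB at hg'
        simp only [dsrc_true, dtgt_mk]
        rcases h3 with ⟨h3, h4⟩ | ⟨h3, h4⟩ <;> subst h3 <;> subst h4 <;> simp only at hg' ⊢ <;>
          omega
      · simp only [dsrc_true, dtgt_mk]
        tauto
    have hall := hcol.trans hst
    have hw' : w.2 < y - 2 * h ∨ y + 2 * h ≤ w.2 := by
      unfold OB at hg' hw
      rcases h3 with ⟨h3, h4⟩ | ⟨h3, h4⟩ <;> subst h3 <;> subst h4 <;> simp only at hg' hw ⊢ <;>
        omega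
    rcases hw' with hw' | hw'
    · exact blockH (c := y - 2 * h) (d := y - h) (by omega) hb' hB (by omega) (by omega) hall.symm
    · exact blockH (c := y + h) (d := y + 2 * h) (by omega) ht' hT (by omega) hw' hall

end H49LP
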