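import Pool.Agent.Helper49K9.LP.Cover
import Pool.Agent.Helper49K9.LP.Alg
import Pool.Agent.Helper49K9.LP.Cross
import Pool.Agent.Helper49K9.LP.Dual2

/-!
Upper bounds.
-/

set_option autoImplicit false

namespace H49LP

open H974 hiding bd
open H731C H731R H731A H731G Finset

theorem cor_bd {m n : ℤ} (hm : 1 ≤ m) (hn : 1 ≤ n) (i : ℤ) : cor (bd m n i) (ofc m n i) := by
  obtain ⟨k, -, h1, h2⟩ := emod_spec (N := 2 * (m + n)) (by omega) i
  unfold bd ofc cor
  generalize i % (2 * (m + n)) = r at h1 h2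
  split_ifs <;> refine ⟨?_, ?_⟩ <;> (try simp only [true_or, or_true]) <;> omega

theorem path_bound (K : ℕ) : ∃ A : ℝ, 0 < A ∧ ∀ (m n : ℤ), 1 ≤ m → 1 ≤ n → m ≤ K * n →
    n ≤ K * m → ∀ (c : ℤ → Vtx) (σ τ P Q M N : ℤ), 0 ≤ σ → σ ≤ τ → 1 ≤ τ → τ ≤ Q → 1 ≤ P →
    0 ≤ M → M ≤ N → 2 * σ ≤ N →
    (∀ s, 1 ≤ s → s ≤ σ → (0 ≤ (c s).1 ∧ (c s).1 ≤ m) ∧ (0 ≤ (c s).2 ∧ (c s).2 ≤ n)) →
    (∀ s, 1 ≤ s → s ≤ σ → min (px m (c s)) (py n (c s)) = s) →
    (∀ s t, |(c s).1 - (c t).1| ≤ |s - t| ∧ |(c s).2 - (c t).2| ≤ |s - t|) →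
    (∀ s : ℤ, 1 ≤ s → s ≤ σ → Ft m n (c s).1 (c s).2 * Wt m n (c s).1 (c s).2 =
      (((N : ℝ) - s) * s * (P * Q)) / (((N : ℝ) - s + P) ^ 2 * ((s : ℝ) + Q) ^ 2)) →
    P2 (RE 0 m 0 n) (fun F => ∃ s, (1 ≤ s ∧ s ≤ σ) ∧ OnV m n (-n) m (c s) F) ≤
      A * ((τ : ℝ) * P / (((τ : ℝ) + Q) * ((P : ℝ) + M))) ^ ((1 : ℝ) / 3) := by
  obtain ⟨A, hA, h⟩ := cover K
  refine ⟨A * (256 * ((K : ℝ) + 1) ^ 2) ^ ((1 : ℝ) / 3), by positivity, ?_⟩
  intro m n hm hn h1 h2 c σ τ P Q M N hσ hστ hτ hτQ hP hM hMN hσN hR hρ hd hFW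
  have hσR : (0 : ℝ) ≤ (σ : ℝ) := by exact_mod_cast hσ
  have hτR : (0 : ℝ) < (τ : ℝ) := by exact_mod_cast (by omega : 0 < τ)
  have hQR : (0 : ℝ) < (Q : ℝ) := by exact_mod_cast (by omega : 0 < Q)
  have hPR : (0 : ℝ) < (P : ℝ) := by exact_mod_cast (by omega : 0 < P)
  have hMR : (0 : ℝ) ≤ (M : ℝ) := by exact_mod_cast hM
  have hNR : (0 : ℝ) ≤ (N : ℝ) := by exact_mod_cast (by omega : 0 ≤ N)
  set Qc : ℝ := 64 * ((K : ℝ) + 1) ^ 2 * (2 * (P : ℝ) / ((Q : ℝ) * ((P : ℝ) + N))) with hQc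
  have hQc0 : 0 ≤ Qc := by positivity
  have e1 := h m n (-n) m hm hn h1 h2 (by omega) (by omega) c σ Qc hQc0 hσ hR hρ hd (by
    intro s hs1 hs2
    obtain ⟨g1, g2⟩ := hR s hs1 hs2
    have b1 := (HH_bounds K hm hn h1 h2 g1 g2).2
    rw [hFW s hs1 hs2] at b1
    have hs0 : (0 : ℝ) < (s : ℝ) := by exact_mod_cast (by omega : 0 < s)
    have hsN : (s : ℝ) ≤ (N : ℝ) / 2 := by
      have : 2 * (s : ℝ) ≤ (N : ℝ) := by exact_mod_cast (by omega : 2 * s ≤ N)
      linarith
    have b2 := alg_step hs0 hsN hPR hQR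
    refine b1.trans ?_
    calc _ ≤ 64 * ((K : ℝ) + 1) ^ 2 * ((s : ℝ) * (2 * (P : ℝ) / ((Q : ℝ) * ((P : ℝ) + N)))) :=
          mul_le_mul_of_nonneg_left b2 (by positivity)
      _ = (s : ℝ) * Qc := by rw [hQc]; ring)
  refine e1.trans ?_
  have e2 : (σ : ℝ) * Qc ≤ 256 * ((K : ℝ) + 1) ^ 2 *
      ((τ : ℝ) * P / (((τ : ℝ) + Q) * ((P : ℝ) + M))) := by
    have b3 := alg_cmp (σ := (σ : ℝ)) (τ := τ) (N := N) (P := P) (Q := Q) (M := M) hσR
      (by exact_mod_cast hστ) hτR (by exact_mod_cast hτQ) hPR hMR (by exact_mod_cast hMN)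
    calc (σ : ℝ) * Qc = 64 * ((K : ℝ) + 1) ^ 2 *
          ((σ : ℝ) * (2 * (P : ℝ) / ((Q : ℝ) * ((P : ℝ) + N)))) := by rw [hQc]; ring
      _ ≤ 64 * ((K : ℝ) + 1) ^ 2 *
          (4 * ((τ : ℝ) * P / (((τ : ℝ) + Q) * ((P : ℝ) + M)))) :=
          mul_le_mul_of_nonneg_left b3 (by positivity)
      _ = _ := by ring
  have e3 := NB.third_le (by positivity : 0 ≤ (σ : ℝ) * Qc) (by positivity)
    (by positivity : (0 : ℝ) ≤ 256 * ((K : ℝ) + 1) ^ 2) e2
  calc A * ((σ : ℝ) * Qc) ^ ((1 : ℝ) / 3) ≤ A * ((256 * ((K : ℝ) + 1) ^ 2) ^ ((1 : ℝ) / 3) *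
        ((τ : ℝ) * P / (((τ : ℝ) + Q) * ((P : ℝ) + M))) ^ ((1 : ℝ) / 3)) :=
        mul_le_mul_of_nonneg_left e3 hA.le
    _ = _ := by ring

theorem lip_h (p q : ℤ) : ∀ s t : ℤ, |((p - s + 1, q) : Vtx).1 - ((p - t + 1, q) : Vtx).1| ≤ |s - t| ∧
    |((p - s + 1, q) : Vtx).2 - ((p - t + 1, q) : Vtx).2| ≤ |s - t| := by
  intro s t
  simp only
  constructor
  · rw [show p - s + 1 - (p - t + 1) = -(s - t) by ring, abs_neg]
  · rw [sub_self, abs_zero]; exact abs_nonneg _

theorem lip_v (p q : ℤ) : ∀ s t : ℤ, |((q, p - s + 1) : Vtx).1 - ((q, p - t + 1) : Vtx).1| ≤ |s - t| ∧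
    |((q, p - s + 1) : Vtx).2 - ((q, p - t + 1) : Vtx).2| ≤ |s - t| := by
  intro s t
  simp only
  constructor
  · rw [sub_self, abs_zero]; exact abs_nonneg _
  · rw [show p - s + 1 - (p - t + 1) = -(s - t) by ring, abs_neg]

theorem WS_upper (K : ℕ) : ∃ A : ℝ, 0 < A ∧ ∀ (m n x y : ℤ), 1 ≤ m → 1 ≤ n → m ≤ K * n →
    n ≤ K * m → (0 ≤ x ∧ x ≤ m) → (0 ≤ y ∧ y ≤ n) →
    min (m + 1 - x) (n + 1 - y) < min (x + 1) (y + 1) →
    P2 (RE 0 m 0 n) (WS m n (-n) m (x, y)) ≤ A * Wt m n x y ^ ((1 : ℝ) / 3) := by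
  obtain ⟨A, hA, h⟩ := path_bound K
  refine ⟨A, hA, ?_⟩
  intro m n x y hm hn h1 h2 hx hy hmin
  rcases le_total (m + 1 - x) (n + 1 - y) with hc | hc
  · -- the right side is the nearest
    have e := h m n hm hn h1 h2 (fun s => (m - s + 1, y)) (m + 1 - x) (m + 1 - x) (n + 1 - y)
      (y + 1) (x + 1) (m + 2) (by omega) le_rfl (by omega) (by omega) (by omega) (by omega)
      (by omega) (by omega) (fun s hs1 hs2 => by simp only; omega)
      (fun s hs1 hs2 => by unfold px py; simp only; omega) (lip_h m y)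
      (fun s hs1 hs2 => by
        rw [FW_eq]
        push_cast
        congr 1 <;> ring)
    refine le_trans (Sc.P2_mono' fun F hF => ?_) (e.trans (le_of_eq ?_))
    · refine WS_hit (k := m + y) (σ := m + 1 - x) (ed := fun s => (m - s, y, true)) hm hn
        (by omega) (by omega) (by omega) (cor_bd hm hn _) (by omega) ⟨?_, ?_, ?_⟩ ?_
      · rw [bd_right hm hn (by omega) (by omega)]
        ext
        · show m - 1 + 1 = m; ring
        · show y = m + y - m; ring
      · intro s hs1 hs2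
        rw [mem_RE_true]; omega
      · intro s hs1 hs2
        right
        refine ⟨?_, ?_⟩
        · rw [src_mk]; ext
          · show m - s = m - (s + 1) + 1; ring
          · rfl
        · rw [tgt_true]
      · have : ((m - (m + 1 - x) + 1, y) : Vtx) = (x, y) := by
          ext
          · show m - (m + 1 - x) + 1 = x; ring
          · rfl
        simp only [this]
        exact hF
    · unfold Wt
      push_cast
      ring_nf
  · -- the upper side is the nearest
    have e := h m n hm hn h1 h2 (fun s => (x, n - s + 1)) (n + 1 - y) (n + 1 - y) (m + 1 - x)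
      (x + 1) (y + 1) (n + 2) (by omega) le_rfl (by omega) (by omega) (by omega) (by omega)
      (by omega) (by omega) (fun s hs1 hs2 => by simp only; omega)
      (fun s hs1 hs2 => by unfold px py; simp only; omega) (lip_v n x)
      (fun s hs1 hs2 => by
        rw [FW_eq]
        push_cast
        congr 1 <;> ring)
    refine le_trans (Sc.P2_mono' fun F hF => ?_) (e.trans (le_of_eq ?_))
    · refine WS_hit (k := 2 * m + n - x) (σ := n + 1 - y) (ed := fun s => (x, n - s, false)) hm hn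
        (by omega) (by omega) (by omega) (cor_bd hm hn _) (by omega) ⟨?_, ?_, ?_⟩ ?_
      · rw [bd_top hm hn (by omega) (by omega)]
        ext
        · show x = 2 * m + n - (2 * m + n - x); ring
        · show n - 1 + 1 = n; ring
      · intro s hs1 hs2
        rw [mem_RE_false]; omega
      · intro s hs1 hs2
        right
        refine ⟨?_, ?_⟩
        · rw [src_mk]; ext
          · rfl
          · show n - s = n - (s + 1) + 1; ring
        · rw [tgt_false]
      · have : ((x, n - (n + 1 - y) + 1) : Vtx) = (x, y) := by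
          ext
          · rfl
          · show n - (n + 1 - y) + 1 = y; ring
        simp only [this]
        exact hF
    · unfold Wt
      push_cast
      ring_nf

theorem FS_upper (K : ℕ) : ∃ A : ℝ, 0 < A ∧ ∀ (m n x y : ℤ), 1 ≤ m → 1 ≤ n → m ≤ K * n →
    n ≤ K * m → (0 ≤ x ∧ x ≤ m) → (0 ≤ y ∧ y ≤ n) →
    min (x + 1) (y + 1) ≤ min (m + 1 - x) (n + 1 - y) →
    P2 (RE 0 m 0 n) (fun F => ¬ WS m n (-n) m (x, y) F) ≤ A * Ft m n x y ^ ((1 : ℝ) / 3) := by
  obtain ⟨A, hA, h⟩ := path_bound K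
  refine ⟨A, hA, ?_⟩
  intro m n x y hm hn h1 h2 hx hy hmin
  have hFt : 0 ≤ A * Ft m n x y ^ ((1 : ℝ) / 3) := by
    have p1 : (0 : ℝ) ≤ ((x + 1 : ℤ) : ℝ) := by exact_mod_cast (by omega : 0 ≤ x + 1)
    have p2 : (0 : ℝ) ≤ ((y + 1 : ℤ) : ℝ) := by exact_mod_cast (by omega : 0 ≤ y + 1)
    have p3 : (0 : ℝ) ≤ ((m + 1 - x + (y + 1) : ℤ) : ℝ) := by
      exact_mod_cast (by omega : 0 ≤ m + 1 - x + (y + 1))
    have p4 : (0 : ℝ) ≤ ((n + 1 - y + (x + 1) : ℤ) : ℝ) := by
      exact_mod_cast (by omega : 0 ≤ n + 1 - y + (x + 1))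
    unfold Ft
    positivity
  rcases le_total y x with hc | hc
  · -- the lower side is the nearest
    rcases hy.1.eq_or_lt with hy0 | hy0
    · rw [Sc.P2_zero]
      · exact hFt
      · intro F hF
        obtain ⟨t, ht, -⟩ := FS_col hm hn hx hy hF
        omega
    have e := h m n hm hn h1 h2 (fun s => (m - x, n - s + 1)) y (y + 1) (x + 1)
      (m + 1 - x) (n + 1 - y) (n + 2) (by omega) (by omega) (by omega) (by omega) (by omega)
      (by omega) (by omega) (by omega) (fun s hs1 hs2 => by simp only; omega)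
      (fun s hs1 hs2 => by unfold px py; simp only; omega) (lip_v n (m - x))
      (fun s hs1 hs2 => by
        rw [FW_eq]
        push_cast
        congr 1 <;> ring)
    refine le_trans (Sc.P2_mono' (B := fun F => ∃ s, (1 ≤ s ∧ s ≤ y) ∧
      OnV m n (-n) m ((fun s => (m - x, n - s + 1)) s) (hat m n F)) fun F hF => ?_)
      (((P2_hat m n _).le).trans (e.trans (le_of_eq ?_)))
    · obtain ⟨t, ht, hV⟩ := FS_col hm hn hx hy hF
      refine VA_hit (k := m + n + x) (σ := y) (ed := fun s => (m - x, n - s, false)) (t := t + 1)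
        hm hn (by omega) (by omega) (by omega) (cor_bd hm hn _) ⟨?_, ?_, ?_⟩ (by omega) ?_
      · rw [bd_top hm hn (by omega) (by omega)]
        ext
        · show m - x = 2 * m + n - (m + n + x); ring
        · show n - 1 + 1 = n; ring
      · intro s hs1 hs2
        rw [mem_RE_false]; omega
      · intro s hs1 hs2
        right
        refine ⟨?_, ?_⟩
        · rw [src_mk]; ext
          · rfl
          · show n - s = n - (s + 1) + 1; ring
        · rw [tgt_false]
      · have : ((m - x, n - (t + 1) + 1) : Vtx) = (m - x, n - t) := by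
          ext
          · rfl
          · show n - (t + 1) + 1 = n - t; ring
        simp only [this]
        exact hV
    · unfold Ft
      push_cast
      ring_nf
  · -- the left side is the nearest
    rcases hx.1.eq_or_lt with hx0 | hx0
    · rw [Sc.P2_zero]
      · exact hFt
      · intro F hF
        obtain ⟨t, ht, -⟩ := FS_row hm hn hx hy hF
        omega
    have e := h m n hm hn h1 h2 (fun s => (m - s + 1, n - y)) x (x + 1) (y + 1)
      (n + 1 - y) (m + 1 - x) (m + 2) (by omega) (by omega) (by omega) (by omega) (by omega)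
      (by omega) (by omega) (by omega) (fun s hs1 hs2 => by simp only; omega)
      (fun s hs1 hs2 => by unfold px py; simp only; omega) (lip_h m (n - y))
      (fun s hs1 hs2 => by
        rw [FW_eq]
        push_cast
        congr 1 <;> ring)
    refine le_trans (Sc.P2_mono' (B := fun F => ∃ s, (1 ≤ s ∧ s ≤ x) ∧
      OnV m n (-n) m ((fun s => (m - s + 1, n - y)) s) (hat m n F)) fun F hF => ?_)
      (((P2_hat m n _).le).trans (e.trans (le_of_eq ?_)))
    · obtain ⟨t, ht, hV⟩ := FS_row hm hn hx hy hF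
      refine VA_hit (k := m + n - y) (σ := x) (ed := fun s => (m - s, n - y, true)) (t := t + 1)
        hm hn (by omega) (by omega) (by omega) (cor_bd hm hn _) ⟨?_, ?_, ?_⟩ (by omega) ?_
      · rw [bd_right hm hn (by omega) (by omega)]
        ext
        · show m - 1 + 1 = m; ring
        · show n - y = m + n - y - m; ring
      · intro s hs1 hs2
        rw [mem_RE_true]; omega
      · intro s hs1 hs2
        right
        refine ⟨?_, ?_⟩
        · rw [src_mk]; ext
          · show m - s = m - (s + 1) + 1; ring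
          · rfl
        · rw [tgt_true]
      · have : ((m - (t + 1) + 1, n - y) : Vtx) = (m - t, n - y) := by
          ext
          · show m - (t + 1) + 1 = m - t; ring
          · rfl
        simp only [this]
        exact hV
    · unfold Ft
      push_cast
      ring_nf

end H49LP
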